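import Pool.Agent.Y342.SK.Sym

/-!
# A block construction of Hadamard matrices of order `4 (2 e g + e)`

From a skew core `W` of order `g`, a Hadamard matrix `L` of order `e`, a skew conference matrix `C` of
order `2 e g`, and a weighing matrix `M` of the same order and of weight `e`, which commutes with `C`
and consists of full diagonal blocks of size `e`.
-/

set_option autoImplicit false
set_option linter.unusedSectionVars false

namespace Pool.Agent.K1H39.Fam

open Finset
open Pool.Agent.H108R3.Had (HasHad)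
open Pool.Agent.Y342.SK (IsCoreG Sg)

/-- indices of the blocks of the conference matrix -/
abbrev Om (X E : Type) : Type := (Bool × X) × E

/-- sign pattern of the core -/
def kp (i j : Bool) : ℤ := if i = true ∧ j = false then -1 else 1

/-- pattern of the identity -/
def lp (i j : Bool) : ℤ := if i = j then 0 else 1

/-- the Sylvester matrix of order four -/
def sy (a b : Bool × Bool) : ℤ := (if a.1 && b.1 then -1 else 1) * (if a.2 && b.2 then -1 else 1)

/-- lower border -/
def hf (a b : Bool × Bool) : ℤ := if (!a.1, !a.2) = b then -1 else 1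

/-- corner -/
def co (a b : Bool × Bool) : ℤ := sy a b - if a = (false, false) then 2 else 0

/-- sign of a pair of booleans -/
def ka (s t : Bool) : ℤ := if s = t then 1 else -1

/-- the data of the construction -/
structure Data (X E : Type) [Fintype X] [DecidableEq X] [Fintype E] [DecidableEq E] where
  W : X → X → ℤ
  L : E → E → ℤ
  C : Om X E → Om X E → ℤ
  M : Om X E → Om X E → ℤ
  hW : IsCoreG (-1) W
  L1 : ∀ a b, Sg (L a b)
  LL : ∀ a b, ∑ c, L a c * L b c = if a = b then (Fintype.card E : ℤ) else 0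
  C0 : ∀ p, C p p = 0
  C1 : ∀ p r, p ≠ r → Sg (C p r)
  Cs : ∀ p r, C r p = - C p r
  CC : ∀ p r, ∑ z, C p z * C r z =
    if p = r then 2 * (Fintype.card E : ℤ) * (Fintype.card X : ℤ) - 1 else 0
  M0 : ∀ p r, p.1 ≠ r.1 → M p r = 0
  M1 : ∀ p r, p.1 = r.1 → Sg (M p r)
  MM : ∀ p r, ∑ z, M p z * M r z = if p = r then (Fintype.card E : ℤ) else 0
  MTM : ∀ p r, ∑ z, M z p * M z r = if p = r then (Fintype.card E : ℤ) else 0
  CM : ∀ p r, ∑ z, C p z * M z r = ∑ z, M p z * C z r

namespace Data

variable {X E : Type} [Fintype X] [DecidableEq X] [Fintype E] [DecidableEq E] (D : Data X E)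

/-- the part with the conference matrix -/
def V : Bool × Om X E → Bool × Om X E → ℤ
  | (false, p), (false, r) => D.C p r + if p = r then 1 else 0
  | (false, p), (true, r) => D.M p r
  | (true, p), (false, r) => -D.M r p
  | (true, p), (true, r) => D.C r p + if p = r then 1 else 0

/-- pattern with the core -/
def T (p r : Bool × X) : ℤ := kp p.1 r.1 * D.W p.2 r.2 + lp p.1 r.1 * if p.2 = r.2 then 1 else 0

/-- the part with the core -/
def U (p r : Bool × Om X E) : ℤ := if p.1 = r.1 then 0 else D.T p.2.1 r.2.1 * D.L p.2.2 r.2.2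

theorem VV (p r : Bool × Om X E) : ∑ z, D.V p z * D.V r z =
    if p = r then 2 * (Fintype.card E : ℤ) * (Fintype.card X : ℤ) + (Fintype.card E : ℤ) else 0 := by
  have hCC' : ∀ p r, ∑ z, D.C z p * D.C z r =
      if p = r then 2 * (Fintype.card E : ℤ) * (Fintype.card X : ℤ) - 1 else 0 := by
    intro p r
    rw [← D.CC p r]
    refine sum_congr rfl fun z _ => ?_
    rw [D.Cs p z, D.Cs r z]; ring
  obtain ⟨h, p⟩ := p
  obtain ⟨h', r⟩ := r
  rw [Fintype.sum_prod_type, Fintype.sum_bool]
  cases h <;> cases h' <;> simp only [V]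
  · have e1 : ∑ z, (D.C p z + if p = z then 1 else 0) * (D.C r z + if r = z then 1 else 0) =
        ∑ z, D.C p z * D.C r z + D.C p r + D.C r p + if p = r then 1 else 0 := by
      simp only [mul_add, add_mul, sum_add_distrib, mul_ite, ite_mul, mul_one, one_mul, mul_zero,
        zero_mul, sum_ite_eq, mem_univ, if_true]
      by_cases hpr : p = r
      · subst hpr; simp <;> ring
      · rw [if_neg hpr]; ring
    rw [e1, D.MM, D.CC, D.Cs p r]
    by_cases hpr : p = r
    · subst hpr; simp <;> ring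
    · simp [hpr]
  · have e1 : ∑ z, (D.C p z + if p = z then 1 else 0) * (-D.M z r) =
        -∑ z, D.C p z * D.M z r - D.M p r := by
      simp only [add_mul, sum_add_distrib, ite_mul, one_mul, zero_mul, sum_ite_eq, mem_univ,
        if_true, mul_neg, sum_neg_distrib]
      ring
    have e2 : ∑ z, D.M p z * (D.C z r + if r = z then 1 else 0) =
        ∑ z, D.M p z * D.C z r + D.M p r := by
      simp only [mul_add, sum_add_distrib, mul_ite, mul_one, mul_zero, sum_ite_eq, mem_univ,
        if_true]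
    rw [e1, e2, D.CM]
    simp
  · have e1 : ∑ z, (-D.M z p) * (D.C r z + if r = z then 1 else 0) =
        -∑ z, D.C r z * D.M z p - D.M r p := by
      simp only [mul_add, sum_add_distrib, mul_ite, mul_one, mul_zero, sum_ite_eq, mem_univ,
        if_true, neg_mul, sum_neg_distrib]
      rw [sum_congr rfl fun z _ => mul_comm (D.M z p) (D.C r z)]
      ring
    have e2 : ∑ z, (D.C z p + if p = z then 1 else 0) * D.M r z =
        ∑ z, D.M r z * D.C z p + D.M r p := by
      simp only [add_mul, sum_add_distrib, ite_mul, one_mul, zero_mul, sum_ite_eq, mem_univ,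
        if_true]
      rw [sum_congr rfl fun z _ => mul_comm (D.C z p) (D.M r z)]
    rw [e1, e2, D.CM]
    simp
  · have e1 : ∑ z, (D.C z p + if p = z then 1 else 0) * (D.C z r + if r = z then 1 else 0) =
        ∑ z, D.C z p * D.C z r + D.C p r + D.C r p + if p = r then 1 else 0 := by
      simp only [mul_add, add_mul, sum_add_distrib, mul_ite, ite_mul, mul_one, one_mul, mul_zero,
        zero_mul, sum_ite_eq, mem_univ, if_true]
      by_cases hpr : p = r
      · subst hpr; simp <;> ring
      · rw [if_neg hpr]; ring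
    have e2 : ∑ z, (-D.M z p) * (-D.M z r) = ∑ z, D.M z p * D.M z r :=
      sum_congr rfl fun z _ => by ring
    rw [e1, e2, D.MTM, hCC', D.Cs p r]
    by_cases hpr : p = r
    · subst hpr; simp <;> ring
    · simp [hpr]

theorem TT (p r : Bool × X) : ∑ z, D.T p z * D.T r z =
    if p.1 = r.1 then (2 * (Fintype.card X : ℤ) + 1) * (if p.2 = r.2 then 1 else 0) - 2 else 0 := by
  obtain ⟨i, x⟩ := p
  obtain ⟨k, y⟩ := r
  rw [Fintype.sum_prod_type]
  have h1 : ∀ j, ∑ z, D.T (i, x) (j, z) * D.T (k, y) (j, z) =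
      (kp i j * kp k j) * ((if x = y then (Fintype.card X : ℤ) else 0) - 1) +
      (kp i j * lp k j) * D.W x y + (lp i j * kp k j) * D.W y x +
      (lp i j * lp k j) * (if x = y then 1 else 0) := by
    intro j
    have h2 : ∀ z, D.T (i, x) (j, z) * D.T (k, y) (j, z) =
        (kp i j * kp k j) * (D.W x z * D.W y z) +
        (kp i j * lp k j) * (D.W x z * if y = z then 1 else 0) +
        (lp i j * kp k j) * ((if x = z then 1 else 0) * D.W y z) +
        (lp i j * lp k j) * ((if x = z then 1 else 0) * if y = z then 1 else 0) := by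
      intro z; simp only [T]; ring
    rw [sum_congr rfl fun z _ => h2 z]
    simp only [sum_add_distrib, ← mul_sum, mul_ite, ite_mul, mul_one, one_mul, mul_zero, zero_mul,
      sum_ite_eq, mem_univ, if_true, D.hW.mul]
  rw [Fintype.sum_bool, h1, h1]
  have h3 : D.W y x = - D.W x y := by rw [D.hW.sym x y]; ring
  rw [h3]
  by_cases hxy : x = y
  · cases i <;> cases k <;> simp [kp, lp, hxy] <;> ring
  · cases i <;> cases k <;> simp [kp, lp, hxy] <;> ring

theorem UU (p r : Bool × Om X E) : ∑ z, D.U p z * D.U r z =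
    if p.1 = r.1 ∧ p.2.2 = r.2.2 ∧ p.2.1.1 = r.2.1.1 then
      (Fintype.card E : ℤ) * ((2 * (Fintype.card X : ℤ) + 1) *
        (if p.2.1.2 = r.2.1.2 then 1 else 0) - 2) else 0 := by
  obtain ⟨h, p, a⟩ := p
  obtain ⟨h', r, b⟩ := r
  rw [Fintype.sum_prod_type]
  have h1 : ∀ j : Bool, ∑ z : Om X E, D.U (h, p, a) (j, z) * D.U (h', r, b) (j, z) =
      (if h = j then 0 else 1) * (if h' = j then 0 else 1) *
        ((∑ z, D.T p z * D.T r z) * (if a = b then (Fintype.card E : ℤ) else 0)) := by
    intro j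
    rw [← D.LL a b, sum_mul_sum, Fintype.sum_prod_type, mul_sum]
    refine sum_congr rfl fun z _ => ?_
    rw [mul_sum]
    refine sum_congr rfl fun c _ => ?_
    simp only [U]
    split_ifs <;> ring
  rw [Fintype.sum_bool, h1, h1, D.TT]
  cases h <;> cases h' <;> by_cases hab : a = b <;> by_cases hi : p.1 = r.1 <;>
    simp [hab, hi] <;> ring

theorem Urow (p : Bool × Om X E) (f : Bool × Bool → E → ℤ) :
    ∑ z : Bool × Om X E, f (z.1, z.2.1.1) z.2.2 * D.U p z =
      ∑ c, f (!p.1, !p.2.1.1) c * D.L p.2.2 c := by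
  obtain ⟨h, ⟨i, x⟩, a⟩ := p
  rw [Fintype.sum_prod_type]
  have h1 : ∀ (j k : Bool) (c : E), ∑ y : X, f (j, k) c * D.U (h, (i, x), a) (j, (k, y), c) =
      (if h = j then 0 else 1) * lp i k * (f (j, k) c * D.L a c) := by
    intro j k c
    simp only [U, T]
    by_cases hj : h = j
    · simp [hj]
    · simp only [if_neg hj]
      rw [← mul_sum, ← sum_mul, sum_add_distrib, ← mul_sum, ← mul_sum, D.hW.row]
      simp only [sum_ite_eq, mem_univ, if_true]
      ring
  have h2 : ∀ j : Bool, ∑ z : Om X E, f (j, z.1.1) z.2 * D.U (h, (i, x), a) (j, z) =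
      ∑ k : Bool, ∑ c : E, (if h = j then 0 else 1) * lp i k * (f (j, k) c * D.L a c) := by
    intro j
    rw [Fintype.sum_prod_type, Fintype.sum_prod_type]
    refine sum_congr rfl fun k _ => ?_
    rw [sum_comm]
    exact sum_congr rfl fun c _ => h1 j k c
  rw [Fintype.sum_bool, h2, h2, Fintype.sum_bool, Fintype.sum_bool]
  cases h <;> cases i <;> simp [lp]

theorem UV_sign (p r : Bool × Om X E) : Sg (D.U p r + D.V p r) ∧ Sg (D.U p r - D.V p r) := by
  have hsg : ∀ x : ℤ, Sg x → Sg (-x) := by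
    intro x hx; rcases hx with h | h <;> rw [h] <;> simp [Sg]
  have hsm : ∀ x y : ℤ, Sg x → Sg y → Sg (x * y) := by
    intro x y hx hy
    rcases hx with h | h <;> rcases hy with h' | h' <;> rw [h, h'] <;> simp [Sg]
  obtain ⟨h, p⟩ := p
  obtain ⟨h', r⟩ := r
  by_cases hh : h = h'
  · subst hh
    have hU : D.U (h, p) (h, r) = 0 := by simp [U]
    have hV : Sg (D.V (h, p) (h, r)) := by
      cases h <;> simp only [V]
      · by_cases hpr : p = r
        · subst hpr; rw [D.C0]; simp [Sg]
        · rw [if_neg hpr, add_zero]; exact D.C1 p r hpr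
      · by_cases hpr : p = r
        · subst hpr; rw [D.C0]; simp [Sg]
        · rw [if_neg hpr, add_zero]; exact D.C1 r p (Ne.symm hpr)
    rw [hU, zero_add, zero_sub]
    exact ⟨hV, hsg _ hV⟩
  · obtain ⟨⟨i, x⟩, a⟩ := p
    obtain ⟨⟨k, y⟩, b⟩ := r
    have hU : D.U (h, ((i, x), a)) (h', ((k, y), b)) = D.T (i, x) (k, y) * D.L a b := by
      simp [U, hh]
    by_cases hp : (i, x) = (k, y)
    · have hT : D.T (i, x) (k, y) = 0 := by
        obtain ⟨rfl, rfl⟩ := Prod.mk.inj hp
        simp [T, lp, D.hW.diag]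
      have hV : Sg (D.V (h, ((i, x), a)) (h', ((k, y), b))) := by
        cases h <;> cases h' <;> simp only [V]
        · exact absurd rfl hh
        · exact D.M1 _ _ hp
        · exact hsg _ (D.M1 _ _ hp.symm)
        · exact absurd rfl hh
      rw [hU, hT, zero_mul, zero_add, zero_sub]
      exact ⟨hV, hsg _ hV⟩
    · have hV : D.V (h, ((i, x), a)) (h', ((k, y), b)) = 0 := by
        cases h <;> cases h' <;> simp only [V]
        · exact absurd rfl hh
        · exact D.M0 _ _ hp
        · rw [D.M0 _ _ (Ne.symm hp), neg_zero]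
        · exact absurd rfl hh
      have hT : Sg (D.T (i, x) (k, y)) := by
        simp only [T]
        by_cases hxy : x = y
        · subst hxy
          have hik : i ≠ k := fun h => hp (by rw [h])
          rw [D.hW.diag]
          simp [lp, hik, Sg]
        · rw [if_neg hxy, mul_zero, add_zero]
          refine hsm _ _ ?_ (D.hW.sign x y hxy)
          simp only [kp, Sg]
          split_ifs <;> simp
      rw [hU, hV, add_zero, sub_zero]
      exact ⟨hsm _ _ hT (D.L1 a b), hsm _ _ hT (D.L1 a b)⟩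

/-- the matrix -/
def Mt : ((Bool × Bool) × E) ⊕ ((Bool × Om X E) × Bool) →
    ((Bool × Bool) × E) ⊕ ((Bool × Om X E) × Bool) → ℤ
  | Sum.inl c, Sum.inl d => co c.1 d.1 * D.L c.2 d.2
  | Sum.inl c, Sum.inr r => sy c.1 (r.1.1, r.1.2.1.1) * D.L c.2 r.1.2.2
  | Sum.inr r, Sum.inl d => hf (r.1.1, r.1.2.1.1) d.1 * D.L r.1.2.2 d.2
  | Sum.inr r, Sum.inr r' => D.U r.1 r'.1 + ka r.2 r'.2 * D.V r.1 r'.1

theorem Mt_sign (p r : ((Bool × Bool) × E) ⊕ ((Bool × Om X E) × Bool)) :
    D.Mt p r = 1 ∨ D.Mt p r = -1 := by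
  have hsm : ∀ x y : ℤ, Sg x → Sg y → Sg (x * y) := by
    intro x y hx hy
    rcases hx with h | h <;> rcases hy with h' | h' <;> rw [h, h'] <;> simp [Sg]
  have hco : ∀ a b, Sg (co a b) := by unfold Sg; decide
  have hsy : ∀ a b, Sg (sy a b) := by unfold Sg; decide
  have hhf : ∀ a b, Sg (hf a b) := by unfold Sg; decide
  rcases p with c | p <;> rcases r with d | r <;> simp only [Mt]
  · exact hsm _ _ (hco _ _) (D.L1 _ _)
  · exact hsm _ _ (hsy _ _) (D.L1 _ _)
  · exact hsm _ _ (hhf _ _) (D.L1 _ _)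
  · have h := D.UV_sign p.1 r.1
    simp only [ka]
    split_ifs
    · rw [one_mul]; exact h.1
    · rw [neg_one_mul, ← sub_eq_add_neg]; exact h.2

theorem cross (c : (Bool × Bool) × E) (p : Bool × Om X E) (s : Bool) :
    ∑ z : (Bool × Om X E) × Bool, (sy c.1 (z.1.1, z.1.2.1.1) * D.L c.2 z.1.2.2) *
      (D.U p z.1 + ka s z.2 * D.V p z.1) =
    2 * sy c.1 (!p.1, !p.2.1.1) * (if c.2 = p.2.2 then (Fintype.card E : ℤ) else 0) := by
  rw [Fintype.sum_prod_type]
  have h1 : ∀ z : Bool × Om X E, ∑ t : Bool, (sy c.1 (z.1, z.2.1.1) * D.L c.2 z.2.2) *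
      (D.U p z + ka s t * D.V p z) =
        2 * ((sy c.1 (z.1, z.2.1.1) * D.L c.2 z.2.2) * D.U p z) := by
    intro z
    rw [Fintype.sum_bool]
    cases s <;> simp [ka] <;> ring
  have h2 : ∑ z : Bool × Om X E, (sy c.1 (z.1, z.2.1.1) * D.L c.2 z.2.2) * D.U p z =
      ∑ a, (sy c.1 (!p.1, !p.2.1.1) * D.L c.2 a) * D.L p.2.2 a :=
    D.Urow p (fun b a => sy c.1 b * D.L c.2 a)
  rw [sum_congr rfl fun z _ => h1 z, ← mul_sum, h2, ← D.LL c.2 p.2.2, mul_sum, mul_sum]
  exact sum_congr rfl fun a _ => by ring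

theorem main_row (p r : ((Bool × Bool) × E) ⊕ ((Bool × Om X E) × Bool)) :
    ∑ z, D.Mt p z * D.Mt r z = if p = r then
      4 * (2 * (Fintype.card E : ℤ) * (Fintype.card X : ℤ) + (Fintype.card E : ℤ)) else 0 := by
  rw [Fintype.sum_sum_type]
  have hprod : ∀ (f g : Bool × Bool → ℤ) (a b : E),
      ∑ z : (Bool × Bool) × E, (f z.1 * D.L a z.2) * (g z.1 * D.L b z.2) =
        (∑ c, f c * g c) * (if a = b then (Fintype.card E : ℤ) else 0) := by
    intro f g a b
    rw [← D.LL a b, sum_mul_sum, Fintype.sum_prod_type]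
    exact sum_congr rfl fun c _ => sum_congr rfl fun d _ => by ring
  rcases p with c | ⟨p, s⟩ <;> rcases r with d | ⟨r, s'⟩
  · simp only [Mt, Sum.inl.injEq]
    rw [hprod]
    have h2 : ∑ z : (Bool × Om X E) × Bool, (sy c.1 (z.1.1, z.1.2.1.1) * D.L c.2 z.1.2.2) *
        (sy d.1 (z.1.1, z.1.2.1.1) * D.L d.2 z.1.2.2) =
        2 * (Fintype.card X : ℤ) * ((∑ b, sy c.1 b * sy d.1 b) *
          (if c.2 = d.2 then (Fintype.card E : ℤ) else 0)) := by
      rw [← hprod, Fintype.sum_prod_type]
      simp only [sum_const, card_univ, Fintype.card_bool, nsmul_eq_mul]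
      rw [← mul_sum, mul_assoc]
      congr 1
      rw [Fintype.sum_prod_type, Fintype.sum_prod_type, Fintype.sum_prod_type, mul_sum]
      refine sum_congr rfl fun h _ => ?_
      rw [Fintype.sum_prod_type, Fintype.sum_prod_type, mul_sum]
      refine sum_congr rfl fun i _ => ?_
      simp only [sum_const, card_univ, nsmul_eq_mul]
    rw [h2]
    have h3 : ∀ i j : Bool × Bool, ∑ c, co i c * co j c = if i = j then 4 else 0 := by decide
    have h4 : ∀ i j : Bool × Bool, ∑ c, sy i c * sy j c = if i = j then 4 else 0 := by decide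
    rw [h3, h4]
    obtain ⟨c1, c2⟩ := c
    obtain ⟨d1, d2⟩ := d
    by_cases h5 : c1 = d1 <;> by_cases h6 : c2 = d2 <;> simp [h5, h6] <;> ring
  · simp only [Mt, reduceCtorEq, if_false]
    rw [D.cross, hprod]
    have h1 : ∀ i a : Bool × Bool, ∑ c, co i c * hf a c = -2 * sy i (!a.1, !a.2) := by decide
    rw [h1]
    ring
  · simp only [Mt, reduceCtorEq, if_false]
    have h0 := D.cross d p s
    simp only [mul_comm (_ * D.L d.2 _)] at h0
    rw [h0, hprod]
    have h1 : ∀ i a : Bool × Bool, ∑ c, hf a c * co i c = -2 * sy i (!a.1, !a.2) := by decide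
    rw [h1]
    by_cases h2 : p.2.2 = d.2
    · rw [if_pos h2, if_pos h2.symm]; ring
    · rw [if_neg h2, if_neg (Ne.symm h2)]; ring
  · simp only [Mt, Sum.inr.injEq]
    rw [hprod]
    have h1 : ∀ a b : Bool × Bool, ∑ c, hf a c * hf b c = if a = b then 4 else 0 := by decide
    rw [h1, Fintype.sum_prod_type]
    have h2 : ∀ z : Bool × Om X E, ∑ t : Bool, (D.U p z + ka s t * D.V p z) *
        (D.U r z + ka s' t * D.V r z) =
        2 * (D.U p z * D.U r z) + 2 * ka s s' * (D.V p z * D.V r z) := by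
      intro z
      rw [Fintype.sum_bool]
      cases s <;> cases s' <;> simp [ka] <;> ring
    rw [sum_congr rfl fun z _ => h2 z, sum_add_distrib, ← mul_sum, ← mul_sum, D.UU, D.VV]
    obtain ⟨h, ⟨i, x⟩, a⟩ := p
    obtain ⟨h', ⟨k, y⟩, b⟩ := r
    by_cases g1 : h = h' <;> by_cases g2 : i = k <;> by_cases g3 : x = y <;> by_cases g4 : a = b <;>
      cases s <;> cases s' <;> simp [g1, g2, g3, g4, ka] <;> ring

include D in
theorem hasHad (n : ℕ) (hn : n = 4 * (2 * Fintype.card E * Fintype.card X + Fintype.card E)) :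
    HasHad n := by
  apply Pool.Agent.TH432.Had.had_reindex
    (ι := ((Bool × Bool) × E) ⊕ ((Bool × Om X E) × Bool)) _ D.Mt D.Mt_sign
  · intro p r
    rw [D.main_row, hn]
    push_cast
    rfl
  · simp only [Fintype.card_sum, Fintype.card_prod, Fintype.card_bool]
    rw [hn]
    ring

end Data

end Pool.Agent.K1H39.Fam
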