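import Pool.Agent.K1H39.Fam.Fld
import Pool.Agent.K1H39.Fam.Blk

/-! Assembly of the construction. -/

set_option autoImplicit false
set_option linter.unusedSectionVars false

namespace Pool.Agent.K1H39.Fam

open Finset QuaternionGroup
open Pool.Agent.H108R3.Had (HasHad)
open Pool.Agent.Y342.SK (IsCoreG Sg)

section zel

variable (n : ℕ)

theorem z_sq : (a (n : ZMod (2 * n)) : QuaternionGroup n) * a (n : ZMod (2 * n)) = 1 := by
  rw [a_mul_a, one_def]
  congr 1
  have : ((2 * n : ℕ) : ZMod (2 * n)) = 0 := ZMod.natCast_self _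
  push_cast at this
  rw [← this]; ring

theorem z_ne [NeZero n] : (a (n : ZMod (2 * n)) : QuaternionGroup n) ≠ 1 := by
  rw [one_def]
  intro h
  have h1 : ((n : ℕ) : ZMod (2 * n)) = 0 := by injection h
  rw [ZMod.natCast_eq_zero_iff] at h1
  have h2 : 0 < n := Nat.pos_of_ne_zero (NeZero.ne n)
  have := Nat.le_of_dvd h2 h1
  omega

theorem z_central (g : QuaternionGroup n) : a (n : ZMod (2 * n)) * g = g * a (n : ZMod (2 * n)) := by
  have h2n : (n : ZMod (2 * n)) = -n := by
    rw [eq_neg_iff_add_eq_zero]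
    have : ((2 * n : ℕ) : ZMod (2 * n)) = 0 := ZMod.natCast_self _
    push_cast at this
    rw [← this]; ring
  rcases g with i | i
  · rw [a_mul_a, a_mul_a, add_comm]
  · rw [a_mul_xa, xa_mul_a, sub_eq_add_neg, ← h2n]

end zel

theorem had_perf (F : Type) [Field F] [Fintype F] [DecidableEq F] (n : ℕ) [NeZero n]
    {g : ℕ} (hg : Fintype.card F + 1 = 4 * n * g) {m : QuaternionGroup n → ℤ}
    (hm : Perf (a (n : ZMod (2 * n)) : QuaternionGroup n) m)
    {S : Fin g → Fin g → ℤ} (hS : IsCoreG (-1) S) : HasHad (4 * (Fintype.card F + 1 + 2 * n)) := by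
  have hn0 : 0 < n := Nat.pos_of_ne_zero (NeZero.ne n)
  have h3 : Fintype.card F % 4 = 3 := by
    have : (Fintype.card F + 1) % 4 = 0 := by rw [hg, mul_assoc]; simp
    omega
  obtain ⟨E, _, _, _, _, D, hE, hD, ⟨T⟩⟩ := exists_all F h3 n ⟨2 * g, by rw [hg]; ring⟩
  have hz2 := z_sq n
  have hz1 := z_ne n
  have hzc := z_central n
  have hH : Fintype.card (Hq (a (n : ZMod (2 * n))) hz2) = 2 * n := by
    have h1 := card_rp (hz2 := hz2) hz1
    rw [QuaternionGroup.card] at h1
    omega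
  have hK : Fintype.card T.Kq = 2 * g := by
    have h1 := T.card_pts hz2 hzc hE
    rw [Fintype.card_prod, hH, hg] at h1
    exact Nat.eq_of_mul_eq_mul_right (by omega : 0 < 2 * n) (by rw [h1]; ring)
  have ε : (Bool × Fin g) ≃ T.Kq := Fintype.equivOfCardEq (by
    rw [Fintype.card_prod, Fintype.card_bool, Fintype.card_fin, hK])
  let θ : Om (Fin g) (Hq (a (n : ZMod (2 * n))) hz2) ≃ T.Kq × Hq (a (n : ZMod (2 * n))) hz2 :=
    Equiv.prodCongr ε (Equiv.refl _)
  have hθ1 : ∀ p, (θ p).1 = ε p.1 := fun p => rfl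
  have hMM : ∀ p r, ∑ w, T.Mm hz2 m (θ p) (θ w) * T.Mm hz2 m (θ r) (θ w) =
      if p = r then (Fintype.card (Hq (a (n : ZMod (2 * n))) hz2) : ℤ) else 0 := by
    intro p r
    rw [θ.sum_comp (fun w => T.Mm hz2 m (θ p) w * T.Mm hz2 m (θ r) w),
      T.Mm_MM hz2 hz1 hzc hm]
    simp only [EmbeddingLike.apply_eq_iff_eq]
  let dat : Data (Fin g) (Hq (a (n : ZMod (2 * n))) hz2) :=
    { W := S
      L := Act.Lm hz2 m
      C := fun p r => T.Cm hz2 (θ p) (θ r)
      M := fun p r => T.Mm hz2 m (θ p) (θ r)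
      hW := hS
      L1 := fun x y => hm.sg _
      LL := Act.Lm_LL hz2 hz1 hzc hm
      C0 := fun p => T.Cm_diag hz2 hD _
      C1 := fun p r hpr => T.Cm_sg hz2 hD hzc (fun h => hpr (θ.injective h))
      Cs := fun p r => T.Cm_skew hz2 hD h3 _ _
      CC := fun p r => by
        rw [θ.sum_comp (fun w => T.Cm hz2 (θ p) w * T.Cm hz2 (θ r) w),
          T.Cm_CC hz2 hD hzc h3 hE, Fintype.card_fin, hH]
        simp only [EmbeddingLike.apply_eq_iff_eq]
        have h1 : (Fintype.card F : ℤ) = 2 * ((2 * n : ℕ) : ℤ) * (g : ℤ) - 1 := by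
          have : ((Fintype.card F + 1 : ℕ) : ℤ) = ((4 * n * g : ℕ) : ℤ) := by rw [hg]
          push_cast at this ⊢
          linarith
        rw [h1]
      M0 := fun p r hpr => by
        simp only [Act.Mm, hθ1]
        rw [if_neg]
        intro h
        exact hpr (ε.injective h)
      M1 := fun p r hpr => by
        simp only [Act.Mm, hθ1, hpr, if_true]
        exact hm.sg _
      MM := hMM
      MTM := cols_of_rows (by rw [hH]; exact_mod_cast (by omega : 2 * n ≠ 0)) hMM
      CM := fun p r => by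
        rw [θ.sum_comp (fun w => T.Cm hz2 (θ p) w * T.Mm hz2 m w (θ r)),
          θ.sum_comp (fun w => T.Mm hz2 m (θ p) w * T.Cm hz2 w (θ r))]
        exact T.CmMm hz2 hzc hz1 hD h3 hm _ _ }
  refine dat.hasHad _ ?_
  rw [hH, Fintype.card_fin, hg]
  ring

/-- the quaternion group of order `2 (q + 1)` has a perfect function -/
theorem perf_field (F : Type) [Field F] [Fintype F] [DecidableEq F] (h3 : Fintype.card F % 4 = 3)
    (n : ℕ) [NeZero n] (hn : 2 * n = Fintype.card F + 1) : ∃ A B, NP n A B := by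
  obtain ⟨E, _, _, _, _, D, hE, hD, ⟨T⟩⟩ := exists_all F h3 n ⟨1, by rw [hn, mul_one]⟩
  obtain ⟨m, hm⟩ := perf_paley T hD (z_sq n) (z_ne n) (z_central n) h3 hE (by
    rw [QuaternionGroup.card, ← hn]; ring)
  exact np_of_perf hm

end Pool.Agent.K1H39.Fam
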