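import Pool.Agent.K1H39.Fam.Fld

/-! Negaperiodic pairs from the quadratic character of the quadratic extension of any field of odd
order. -/

set_option autoImplicit false
set_option linter.unusedSectionVars false

namespace Pool.Agent.K1H39.Fam

open Finset
open Pool.Agent.Y342.SK (Sg)

section gen

variable {F E : Type} [Field F] [Fintype F] [DecidableEq F] [AddCommGroup E] [Module F E]
  [Fintype E] [DecidableEq E] {D : E → E → F}

theorem sum_zero_odd (hD : Alt D) (h2 : ringChar F ≠ 2) {x y : E} (hxy : D x y ≠ 0) :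
    ∑ w : E, qc (D x w) * qc (D y w) = 0 := by
  have hyx : D y x ≠ 0 := by rw [hD.symm]; exact neg_ne_zero.2 hxy
  obtain ⟨ν, hν⟩ := FiniteField.exists_nonsquare h2
  have hν0 : ν ≠ 0 := by
    rintro rfl
    exact hν ⟨0, by ring⟩
  have hνc : qc ν = -1 := quadraticChar_neg_one_iff_not_isSquare.2 hν
  let τ : E → E := fun w => w + ((ν - 1) * D y w / D y x) • x
  have h1 : ∀ w, D y (τ w) = ν * D y w := by
    intro w
    simp only [τ]
    rw [hD.add, hD.smul, div_mul_cancel₀ _ hyx]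
    ring
  have h3 : ∀ w, D x (τ w) = D x w := by
    intro w
    simp only [τ]
    rw [hD.add, hD.smul, hD.self]
    ring
  have h4 : Function.Injective τ := by
    intro w w' h
    have h5 : ν * D y w = ν * D y w' := by rw [← h1, ← h1, h]
    have h6 := mul_left_cancel₀ hν0 h5
    simp only [τ] at h
    rw [h6] at h
    exact add_right_cancel h
  have h5 := Equiv.sum_comp (Equiv.ofBijective τ (Finite.injective_iff_bijective.1 h4))
    (fun w => qc (D x w) * qc (D y w))
  have h6 : ∀ w, qc (D x (Equiv.ofBijective τ (Finite.injective_iff_bijective.1 h4) w)) *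
      qc (D y (Equiv.ofBijective τ (Finite.injective_iff_bijective.1 h4) w)) =
      -(qc (D x w) * qc (D y w)) := by
    intro w
    rw [Equiv.ofBijective_apply, h1, h3, qc_mul, hνc]
    ring
  simp only [h6, sum_neg_distrib] at h5
  linarith

end gen

theorem sum_range_periodic {P : ℕ} (h : ℕ) (f : ℕ → ℤ) (hf : ∀ i, f (i + P) = f i) :
    ∑ i ∈ range (P * h), f i = h * ∑ i ∈ range P, f i := by
  have hf' : ∀ h i, f (P * h + i) = f i := by
    intro h i
    induction h with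
    | zero => simp
    | succ h ih => rw [show P * (h + 1) + i = P * h + i + P by ring, hf, ih]
  induction h with
  | zero => simp
  | succ h ih =>
    rw [mul_add, mul_one, sum_range_add, ih]
    simp only [hf']
    push_cast
    ring

/-- the sign of multiples of `n` -/
def dl (n : ℕ) (i : ℤ) : ℤ := if (2 * n : ℤ) ∣ i then 1 else if (n : ℤ) ∣ i then -1 else 0

theorem dl_add {n : ℕ} (hn : 0 < n) (i : ℤ) : dl n (i + n) = - dl n i := by
  have hn' : (n : ℤ) ≠ 0 := by exact_mod_cast hn.ne'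
  unfold dl
  by_cases h : (n : ℤ) ∣ i
  · obtain ⟨c, rfl⟩ := h
    have e1 : (2 * n : ℤ) ∣ n * c ↔ 2 ∣ c := by
      rw [mul_comm (2 : ℤ), mul_dvd_mul_iff_left hn']
    have e2 : (2 * n : ℤ) ∣ n * c + n ↔ 2 ∣ c + 1 := by
      rw [mul_comm (2 : ℤ), show (n : ℤ) * c + n = n * (c + 1) by ring, mul_dvd_mul_iff_left hn']
    have e3 : (n : ℤ) ∣ n * c + n := ⟨c + 1, by ring⟩
    rw [if_pos e3]
    simp only [e1, e2, dvd_mul_right, if_true]
    rcases Int.even_or_odd' c with ⟨r, hr | hr⟩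
    · rw [if_neg (by omega), if_pos (by omega)]
    · rw [if_pos (by omega), if_neg (by omega)]; norm_num
  · have h1 : ¬ (n : ℤ) ∣ i + n := by
      intro h'
      exact h ((Int.dvd_add_left (dvd_refl _)).1 h')
    have h2 : ∀ j : ℤ, ¬ (n : ℤ) ∣ j → ¬ (2 * n : ℤ) ∣ j := by
      intro j hj h'
      exact hj ((Dvd.intro_left _ rfl).trans h')
    rw [if_neg (h2 _ h1), if_neg h1, if_neg (h2 _ h), if_neg h]; simp

section conf

variable {F E : Type} [Field F] [Fintype F] [DecidableEq F] [Field E] [Fintype E] [DecidableEq E]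
  [Algebra F E]

theorem np_conf' (hfr : Module.finrank F E = 2) (hodd : Fintype.card F % 2 = 1) :
    ∃ A B, NP (Fintype.card F + 1) A B := by
  obtain ⟨q, hq⟩ : ∃ q, q = Fintype.card F := ⟨_, rfl⟩
  have hE := card_E (F := F) (E := E) hfr
  have hchar : ringChar F ≠ 2 := by
    intro h
    have := FiniteField.even_card_of_char_two h
    omega
  rw [← hq] at hE hodd ⊢
  obtain ⟨h, hh⟩ : ∃ h, q = 2 * h + 1 := ⟨q / 2, by omega⟩
  have hq1 : 1 < q := by rw [hq]; exact Fintype.one_lt_card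
  have hh0 : 0 < h := by omega
  obtain ⟨γ, hγ⟩ := IsCyclic.exists_generator (α := Eˣ)
  have hord : orderOf γ = 2 * (q + 1) * h := by
    rw [orderOf_eq_card_of_forall_mem_zpowers hγ, Nat.card_eq_fintype_card, Fintype.card_units, hE,
      hh]
    have : (2 * h + 1) ^ 2 = 2 * (2 * h + 1 + 1) * h + 1 := by ring
    omega
  have hzp : ∀ i : ℤ, γ ^ i = 1 ↔ ((2 * (q + 1) * h : ℕ) : ℤ) ∣ i := by
    intro i
    rw [← hord, orderOf_dvd_iff_zpow_eq_one]
  have hfrob : ∀ x : E, FiniteField.frobeniusAlgHom F E x = x ^ q := by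
    intro x
    rw [FiniteField.coe_frobeniusAlgHom, hq]
  -- the element kappa
  have hhalf : ((γ ^ ((q + 1) * h) : Eˣ) : E) = -1 := by
    have h1 : ((γ ^ ((q + 1) * h) : Eˣ) : E) * ((γ ^ ((q + 1) * h) : Eˣ) : E) = 1 := by
      rw [← Units.val_mul, ← pow_add, show (q + 1) * h + (q + 1) * h = orderOf γ by rw [hord]; ring,
        pow_orderOf_eq_one, Units.val_one]
    rcases mul_self_eq_one_iff.1 h1 with h2 | h2
    · exfalso
      have h3 : γ ^ (((q + 1) * h : ℕ) : ℤ) = 1 := by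
        rw [zpow_natCast]; exact Units.ext h2
      rw [hzp] at h3
      have h4 := Int.natCast_dvd_natCast.1 h3
      have h5 : 0 < (q + 1) * h := by positivity
      have := Nat.le_of_dvd h5 h4
      have h6 : 2 * (q + 1) * h = (q + 1) * h + (q + 1) * h := by ring
      omega
    · exact h2
  obtain ⟨κ, hκ⟩ : ∃ κ : E, κ = (γ : E) ^ (h + 1) := ⟨_, rfl⟩
  have hκ0 : κ ≠ 0 := by rw [hκ]; exact pow_ne_zero _ γ.ne_zero
  have hκs : FiniteField.frobeniusAlgHom F E κ = -κ := by
    rw [hfrob, hκ, ← pow_mul]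
    have e1 : (h + 1) * q = (q + 1) * h + (h + 1) := by rw [hh]; ring
    rw [e1, pow_add, ← Units.val_pow_eq_pow_val γ ((q + 1) * h), hhalf]; ring
  have hD := alt_Df (F := F) (E := E) hfr hκ0 hκs
  -- elements of the base field
  have hF : ∀ i : ℤ, ((q + 1 : ℕ) : ℤ) ∣ i ↔
      FiniteField.frobeniusAlgHom F E ((γ ^ i : Eˣ) : E) = ((γ ^ i : Eˣ) : E) := by
    intro i
    rw [hfrob, ← Units.val_pow_eq_pow_val, Units.val_inj, ← zpow_natCast, ← zpow_mul]
    have e1 : γ ^ (i * (q : ℤ)) = γ ^ i ↔ γ ^ (i * ((q : ℤ) - 1)) = 1 := by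
      rw [mul_sub, mul_one, zpow_sub, mul_inv_eq_one]
    rw [e1, hzp]
    have e2 : ((q : ℤ) - 1) = 2 * h := by rw [hh]; push_cast; ring
    have e3 : ((2 * (q + 1) * h : ℕ) : ℤ) = ((q + 1 : ℕ) : ℤ) * (2 * h) := by push_cast; ring
    rw [e2, e3]
    have h2h : (2 * h : ℤ) ≠ 0 := by positivity
    exact (mul_dvd_mul_iff_right h2h).symm
  obtain ⟨c, hc⟩ : ∃ c : ℤ → ℤ, c = fun i => qc (Df (F := F) κ 1 ((γ ^ i : Eˣ) : E)) := ⟨_, rfl⟩
  have hce : ∀ i, c i = qc (Df (F := F) κ 1 ((γ ^ i : Eˣ) : E)) := by intro i; rw [hc]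
  obtain ⟨l, hl⟩ := fixed_mem (F := F) (x := ((γ ^ ((q + 1 : ℕ) : ℤ) : Eˣ) : E)) (by
    have := (hF _).1 (dvd_refl ((q + 1 : ℕ) : ℤ))
    rw [hfrob] at this
    rw [← hq]
    exact this)
  have hl0 : l ≠ 0 := by
    rintro rfl
    rw [map_zero] at hl
    exact (Units.ne_zero _) hl.symm
  have hlc : qc l = -1 := by
    rcases qc_sg hl0 with h1 | h1
    · exfalso
      have h3 : IsSquare l := (quadraticChar_one_iff_isSquare hl0).1 h1
      obtain ⟨r, hr⟩ := h3
      have h4 : l ^ h = 1 := by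
        have hr0 : r ≠ 0 := by rintro rfl; rw [mul_zero] at hr; exact hl0 hr
        rw [hr, ← sq, ← pow_mul]
        have := FiniteField.pow_card_sub_one_eq_one r hr0
        rwa [← hq, show q - 1 = 2 * h by omega] at this
      have h5 : ((γ ^ ((q + 1) * h) : Eˣ) : E) = 1 := by
        rw [pow_mul, Units.val_pow_eq_pow_val, ← zpow_natCast γ (q + 1), ← hl, ← map_pow, h4,
          map_one]
      rw [hhalf] at h5
      have h6 : (algebraMap F E) (-1) = (algebraMap F E) 1 := by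
        rw [map_neg, map_one]; exact h5
      exact Ring.neg_one_ne_one_of_char_ne_two hchar ((algebraMap F E).injective h6)
    · exact h1
  have hcn : ∀ i, c (i + ((q + 1 : ℕ) : ℤ)) = - c i := by
    intro i
    rw [hce, hce]
    have e1 : ((γ ^ (i + ((q + 1 : ℕ) : ℤ)) : Eˣ) : E) = l • ((γ ^ i : Eˣ) : E) := by
      rw [zpow_add, Units.val_mul, Algebra.smul_def, hl, mul_comm]
    rw [e1, hD.smul, qc_mul, hlc]; ring
  have hD0 : ∀ i : ℤ, ¬ ((q + 1 : ℕ) : ℤ) ∣ i → Df (F := F) κ 1 ((γ ^ i : Eˣ) : E) ≠ 0 := by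
    intro i hi h0
    apply hi
    rw [hF]
    obtain ⟨r, hr⟩ := hD.nd _ _ one_ne_zero h0
    rw [hr, Algebra.smul_def, mul_one, AlgHom.commutes]
  have hc0 : ∀ i : ℤ, ((q + 1 : ℕ) : ℤ) ∣ i → c i = 0 := by
    intro i hi
    rw [hF] at hi
    have h0 : Df (F := F) κ 1 ((γ ^ i : Eˣ) : E) = 0 := by
      apply (algebraMap F E).injective
      rw [algD hfr hκs, map_zero, hi, map_one]; ring
    rw [hce, h0, qc_zero]
  have hc1 : ∀ i : ℤ, ¬ ((q + 1 : ℕ) : ℤ) ∣ i → Sg (c i) := by
    intro i hi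
    rw [hce]
    exact qc_sg (hD0 i hi)
  -- correlations
  have hcor : ∀ s : ℤ, ¬ ((q + 1 : ℕ) : ℤ) ∣ s →
      ∑ i ∈ range (2 * (q + 1)), c i * c (i + s) = 0 := by
    intro s hs
    obtain ⟨y, hy⟩ : ∃ y : E, y = FiniteField.frobeniusAlgHom F E ((γ ^ s : Eˣ) : E) := ⟨_, rfl⟩
    have hDy : Df (F := F) κ 1 y ≠ 0 := by
      intro h0
      obtain ⟨r, hr⟩ := hD.nd _ _ one_ne_zero h0
      apply hs
      rw [hF]
      have h1 := sig_sig (F := F) (E := E) hfr ((γ ^ s : Eˣ) : E)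
      rw [← hy, hr, Algebra.smul_def, mul_one, AlgHom.commutes] at h1
      rw [← h1, AlgHom.commutes]
    have h1 := sum_zero_odd hD hchar hDy
    have h2 : ∀ w : E, Df (F := F) κ y w = Df (F := F) κ 1 (((γ ^ s : Eˣ) : E) * w) := by
      intro w
      unfold Df
      rw [hy, sig_sig hfr, map_one]
      congr 1; ring
    simp only [h2] at h1
    have h3 : ∑ w : E, qc (Df (F := F) κ 1 w) * qc (Df (F := F) κ 1 (((γ ^ s : Eˣ) : E) * w)) =
        ∑ u : Eˣ, qc (Df (F := F) κ 1 u) * qc (Df (F := F) κ 1 (((γ ^ s : Eˣ) : E) * u)) := by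
      have e0 : Df (F := F) κ 1 (0 : E) = 0 := by
        apply (algebraMap F E).injective
        rw [algD hfr hκs, map_zero, map_zero]; ring
      rw [Fintype.sum_eq_add_sum_subtype_ne _ (0 : E), e0, qc_zero, zero_mul, zero_add,
        ← (unitsEquivNeZero (G₀ := E)).sum_comp]
      rfl
    rw [h3] at h1
    have h4 : ∑ u : Eˣ, qc (Df (F := F) κ 1 u) * qc (Df (F := F) κ 1 (((γ ^ s : Eˣ) : E) * u)) =
        ∑ i ∈ range (orderOf γ), c i * c (i + s) := by
      rw [← IsCyclic.image_range_orderOf hγ, sum_image (fun x hx y hy hxy => by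
        exact pow_injOn_Iio_orderOf (by simpa using hx) (by simpa using hy) hxy)]
      refine sum_congr rfl fun i _ => ?_
      rw [hce, hce, zpow_natCast, add_comm (i : ℤ) s, zpow_add, zpow_natCast, Units.val_mul]
    rw [h4, hord, sum_range_periodic h (fun i : ℕ => c i * c (i + s)) (by
      intro i
      have e1 : ((i + 2 * (q + 1) : ℕ) : ℤ) = (i : ℤ) + ((q + 1 : ℕ) : ℤ) + ((q + 1 : ℕ) : ℤ) := by
        push_cast; ring
      have e2 : (i : ℤ) + ((q + 1 : ℕ) : ℤ) + ((q + 1 : ℕ) : ℤ) + s =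
        (i : ℤ) + s + ((q + 1 : ℕ) : ℤ) + ((q + 1 : ℕ) : ℤ) := by ring
      rw [e1, e2, hcn, hcn, hcn, hcn]; ring)] at h1
    have h5 : (h : ℤ) ≠ 0 := by positivity
    exact (mul_eq_zero.1 h1).resolve_left h5
  have hq0 : 0 < q + 1 := by omega
  refine ⟨fun i => c i + dl (q + 1) i, fun i => c i - dl (q + 1) i, fun i => ?_, fun i => ?_,
    fun i => ?_, fun i => ?_, fun s hs => ?_⟩
  · by_cases hi : ((q + 1 : ℕ) : ℤ) ∣ i
    · simp only [hc0 i hi, dl, if_pos hi, zero_add]
      split_ifs <;> simp [Sg]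
    · have h2 : ¬ (2 * ((q + 1 : ℕ) : ℤ)) ∣ i := fun h' => hi ((Dvd.intro_left _ rfl).trans h')
      simp only [dl, if_neg hi, if_neg h2, add_zero]
      exact hc1 i hi
  · by_cases hi : ((q + 1 : ℕ) : ℤ) ∣ i
    · simp only [hc0 i hi, dl, if_pos hi, zero_sub]
      split_ifs <;> simp [Sg]
    · have h2 : ¬ (2 * ((q + 1 : ℕ) : ℤ)) ∣ i := fun h' => hi ((Dvd.intro_left _ rfl).trans h')
      simp only [dl, if_neg hi, if_neg h2, sub_zero]
      exact hc1 i hi
  · simp only [hcn, dl_add hq0]; ring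
  · simp only [hcn, dl_add hq0]; ring
  · have h1 : ∀ i : ℕ, dl (q + 1) i * dl (q + 1) (i + s) = 0 := by
      intro i
      by_cases hi : ((q + 1 : ℕ) : ℤ) ∣ i
      · have h2 : ¬ ((q + 1 : ℕ) : ℤ) ∣ i + s := fun h' => hs ((Int.dvd_add_right hi).1 h')
        have h3 : ¬ (2 * ((q + 1 : ℕ) : ℤ)) ∣ i + s := fun h' => h2 ((Dvd.intro_left _ rfl).trans h')
        have : dl (q + 1) (i + s) = 0 := by
          unfold dl
          rw [if_neg h3, if_neg h2]
        rw [this, mul_zero]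
      · have h3 : ¬ (2 * ((q + 1 : ℕ) : ℤ)) ∣ i := fun h' => hi ((Dvd.intro_left _ rfl).trans h')
        have : dl (q + 1) i = 0 := by
          unfold dl
          rw [if_neg h3, if_neg hi]
        rw [this, zero_mul]
    have h2 : ∀ i : ℕ, (c i + dl (q + 1) i) * (c (i + s) + dl (q + 1) (i + s)) +
        (c i - dl (q + 1) i) * (c (i + s) - dl (q + 1) (i + s)) = 2 * (c i * c (i + s)) := by
      intro i
      linear_combination 2 * h1 i
    simp only [h2]
    rw [← mul_sum, hcor s hs, mul_zero]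

end conf

/-- for every odd prime power `q` -/
theorem np_conf (F : Type) [Field F] [Fintype F] [DecidableEq F] (hodd : Fintype.card F % 2 = 1) :
    ∃ A B, NP (Fintype.card F + 1) A B := by
  classical
  obtain ⟨p, hp⟩ := CharP.exists F
  have : Fact p.Prime := ⟨CharP.char_is_prime F p⟩
  let E := FiniteField.Extension F p 2
  have : Fintype E := Fintype.ofFinite E
  have hfr : Module.finrank F E = 2 := FiniteField.finrank_extension F p 2
  exact np_conf' (E := E) hfr hodd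

end Pool.Agent.K1H39.Fam
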