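import Pool.Agent.K1H39.Fam.Pal

/-! Quaternion groups acting on the quadratic extension of a finite field. -/

set_option autoImplicit false
set_option linter.unusedSectionVars false

namespace Pool.Agent.K1H39.Fam

open Finset
open Pool.Agent.Y342.SK (Sg)

section fld

variable {F E : Type} [Field F] [Fintype F] [DecidableEq F] [Field E] [Fintype E] [DecidableEq E]
  [Algebra F E]

/-- elements fixed by the Frobenius map -/
theorem fixed_mem {x : E} (hx : x ^ Fintype.card F = x) : ∃ l : F, algebraMap F E l = x := by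
  by_contra hcon
  push Not at hcon
  have hq : 1 < Fintype.card F := Fintype.one_lt_card
  let P : Polynomial E := Polynomial.X ^ Fintype.card F - Polynomial.X
  have hP0 : P ≠ 0 := FiniteField.X_pow_card_sub_X_ne_zero E hq
  have hPd : P.natDegree = Fintype.card F := FiniteField.X_pow_card_sub_X_natDegree_eq E hq
  have hroot : ∀ y : E, y ^ Fintype.card F = y → y ∈ P.roots.toFinset := by
    intro y hy
    rw [Multiset.mem_toFinset, Polynomial.mem_roots hP0]
    simp [P, hy]
  have hsub : insert x (univ.image (algebraMap F E)) ⊆ P.roots.toFinset := by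
    intro y hy
    rw [mem_insert, mem_image] at hy
    rcases hy with rfl | ⟨l, -, rfl⟩
    · exact hroot _ hx
    · apply hroot
      rw [← map_pow, FiniteField.pow_card]
  have h1 := card_le_card hsub
  rw [card_insert_of_notMem (by
    rw [mem_image]
    rintro ⟨l, -, hl⟩
    exact hcon l hl), card_image_of_injective _ (algebraMap F E).injective, card_univ] at h1
  have h2 := Multiset.toFinset_card_le P.roots
  have h3 := P.card_roots'
  omega

/-- the Frobenius map -/
noncomputable abbrev sig (x : E) : E := FiniteField.frobeniusAlgHom F E x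

/-- the form -/
noncomputable def Df (κ : E) (x y : E) : F :=
  Algebra.trace F E (κ * FiniteField.frobeniusAlgHom F E x * y)

variable (hfr : Module.finrank F E = 2)

include hfr in
theorem card_E : Fintype.card E = Fintype.card F ^ 2 := by
  have := Module.card_eq_pow_finrank (K := F) (V := E)
  rwa [hfr] at this

include hfr in
theorem sig_sig (x : E) : FiniteField.frobeniusAlgHom F E (FiniteField.frobeniusAlgHom F E x) = x := by
  rw [FiniteField.coe_frobeniusAlgHom]
  simp only
  rw [← pow_mul, ← sq, ← card_E hfr, FiniteField.pow_card]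

include hfr in
theorem algD {κ : E} (hκ : FiniteField.frobeniusAlgHom F E κ = -κ) (x y : E) :
    algebraMap F E (Df (F := F) κ x y) = κ * (FiniteField.frobeniusAlgHom F E x * y -
      x * FiniteField.frobeniusAlgHom F E y) := by
  unfold Df
  rw [FiniteField.algebraMap_trace_eq_sum_pow, hfr, sum_range_succ, sum_range_one, pow_zero,
    pow_one, pow_one, Nat.card_eq_fintype_card]
  have h1 : (κ * FiniteField.frobeniusAlgHom F E x * y) ^ Fintype.card F =
      FiniteField.frobeniusAlgHom F E (κ * FiniteField.frobeniusAlgHom F E x * y) := by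
    rw [FiniteField.coe_frobeniusAlgHom]
  rw [h1, map_mul, map_mul, sig_sig hfr, hκ]
  ring

include hfr in
theorem alt_Df {κ : E} (hκ0 : κ ≠ 0) (hκ : FiniteField.frobeniusAlgHom F E κ = -κ) :
    Alt (Df (F := F) κ) := by
  have hinj := (algebraMap F E).injective
  refine ⟨fun x y y' => ?_, fun l x y => ?_, fun x y => ?_, fun x => ?_, fun x y hx h => ?_⟩
  · unfold Df
    rw [mul_add, map_add]
  · unfold Df
    rw [mul_smul_comm, map_smul, smul_eq_mul]
  · apply hinj
    rw [map_neg, algD hfr hκ, algD hfr hκ]
    ring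
  · apply hinj
    rw [algD hfr hκ, map_zero]
    ring
  · have h1 := algD hfr hκ x y
    rw [h, map_zero] at h1
    have h2 : FiniteField.frobeniusAlgHom F E x * y = x * FiniteField.frobeniusAlgHom F E y := by
      have h3 := (mul_eq_zero.1 h1.symm).resolve_left hκ0
      linear_combination h3
    have hsx : FiniteField.frobeniusAlgHom F E x ≠ 0 := by
      intro h0
      apply hx
      have := congrArg (FiniteField.frobeniusAlgHom F E) h0
      rwa [sig_sig hfr, map_zero] at this
    have h3 : (y / x) ^ Fintype.card F = y / x := by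
      have h4 : (y / x) ^ Fintype.card F = FiniteField.frobeniusAlgHom F E (y / x) := by
        rw [FiniteField.coe_frobeniusAlgHom]
      rw [h4, map_div₀, div_eq_div_iff hsx hx]
      linear_combination -h2
    obtain ⟨l, hl⟩ := fixed_mem (F := F) h3
    refine ⟨l, ?_⟩
    rw [Algebra.smul_def, hl, div_mul_cancel₀ _ hx]

open QuaternionGroup

/-- the elements of the cyclic group -/
structure Elts (F E : Type) [Field F] [Fintype F] [Field E] [Algebra F E] (n : ℕ) where
  κ : E
  t : E
  δ : E
  κ0 : κ ≠ 0
  κs : FiniteField.frobeniusAlgHom F E κ = -κ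
  tn : t ^ n = -1
  ts : FiniteField.frobeniusAlgHom F E t * t = 1
  tord : ∀ i : ℕ, t ^ i = 1 → 2 * n ∣ i
  δs : FiniteField.frobeniusAlgHom F E δ * δ = -1

include hfr in
theorem exists_elts (h3 : Fintype.card F % 4 = 3) {n : ℕ}
    (hn : 2 * n ∣ Fintype.card F + 1) : Nonempty (Elts F E n) := by
  obtain ⟨q, hq⟩ : ∃ q, q = Fintype.card F := ⟨_, rfl⟩
  have hn' := hn
  have h3' := h3
  rw [← hq] at h3' hn'
  obtain ⟨c, hc⟩ := hn'
  obtain ⟨h, hh⟩ : ∃ h, q = 2 * h + 1 := ⟨q / 2, by omega⟩
  have hE := card_E (F := F) (E := E) hfr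
  rw [← hq] at hE
  obtain ⟨γ, hγ⟩ := IsCyclic.exists_generator (α := Eˣ)
  have hord : orderOf γ = 2 * h * (q + 1) := by
    rw [orderOf_eq_card_of_forall_mem_zpowers hγ, Nat.card_eq_fintype_card, Fintype.card_units, hE,
      hh]
    have : (2 * h + 1) ^ 2 = 2 * h * (2 * h + 1 + 1) + 1 := by ring
    omega
  have hc0 : 0 < c := by
    rcases Nat.eq_zero_or_pos c with h0 | h0
    · rw [h0] at hc; omega
    · exact h0
  have hh0 : 0 < h := by omega
  have hpow : ∀ i : ℕ, (γ : E) ^ i = 1 → 2 * h * (q + 1) ∣ i := by
    intro i hi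
    rw [← hord]
    apply orderOf_dvd_of_pow_eq_one
    apply Units.ext
    rw [Units.val_pow_eq_pow_val, hi, Units.val_one]
  have hfull : (γ : E) ^ (2 * h * (q + 1)) = 1 := by
    rw [← hord, ← Units.val_pow_eq_pow_val, pow_orderOf_eq_one, Units.val_one]
  have hhalf : (γ : E) ^ (h * (q + 1)) = -1 := by
    have h1 : (γ : E) ^ (h * (q + 1)) * (γ : E) ^ (h * (q + 1)) = 1 := by
      rw [← pow_add, ← hfull]; congr 1; ring
    rcases mul_self_eq_one_iff.1 h1 with h2 | h2
    · exfalso
      have h4 := Nat.le_of_dvd (by positivity) (hpow _ h2)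
      have h5 : 0 < h * (q + 1) := by positivity
      have h6 : 2 * h * (q + 1) = h * (q + 1) + h * (q + 1) := by ring
      omega
    · exact h2
  have hfrob : ∀ x : E, FiniteField.frobeniusAlgHom F E x = x ^ q := by
    intro x
    rw [FiniteField.coe_frobeniusAlgHom, hq]
  refine ⟨⟨(γ : E) ^ (n * c), (γ : E) ^ (2 * h * c), (γ : E) ^ h, pow_ne_zero _ γ.ne_zero, ?_, ?_, ?_,
    ?_, ?_⟩⟩
  · rw [hfrob, ← pow_mul]
    have e1 : n * c * q = h * (q + 1) + n * c := by
      have : q + 1 = 2 * (n * c) := by rw [hc]; ring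
      have e2 : n * c * q = n * c * (2 * h + 1) := by rw [← hh]
      rw [e2, this]; ring
    rw [e1, pow_add, hhalf]; ring
  · rw [← pow_mul, ← hhalf]
    congr 1
    rw [hc]; ring
  · rw [hfrob, ← pow_mul, ← pow_add]
    have e1 : 2 * h * c * q + 2 * h * c = 2 * h * (q + 1) * c := by ring
    rw [e1, pow_mul, hfull, one_pow]
  · intro i hi
    rw [← pow_mul] at hi
    have h5 := hpow _ hi
    rw [hc, show 2 * h * (2 * n * c) = (2 * h * c) * (2 * n) by ring] at h5
    exact Nat.dvd_of_mul_dvd_mul_left (by positivity) h5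
  · rw [hfrob, ← pow_mul, ← pow_add, ← hhalf]
    congr 1

section act

variable {n : ℕ} (e : Elts F E n)

/-- powers with exponents modulo `2n` -/
noncomputable def tp (i : ZMod (2 * n)) : E := e.t ^ i.val

theorem t_full : e.t ^ (2 * n) = 1 := by
  rw [mul_comm, pow_mul, e.tn]; norm_num

theorem t_ne : e.t ≠ 0 := by
  intro h0
  have := e.ts
  rw [h0, mul_zero] at this
  exact zero_ne_one this

variable [NeZero n]

theorem tp_natCast (k : ℕ) : tp e (k : ZMod (2 * n)) = e.t ^ k := by
  unfold tp
  rw [ZMod.val_natCast]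
  conv_rhs => rw [← Nat.div_add_mod k (2 * n), pow_add, pow_mul, t_full, one_pow, one_mul]

theorem tp_add (i j : ZMod (2 * n)) : tp e (i + j) = tp e i * tp e j := by
  conv_lhs => rw [← ZMod.natCast_zmod_val i, ← ZMod.natCast_zmod_val j, ← Nat.cast_add, tp_natCast,
    pow_add]
  rfl

theorem tp_zero : tp e 0 = 1 := by
  have := tp_natCast e 0
  rwa [Nat.cast_zero, pow_zero] at this

theorem tp_n : tp e (n : ZMod (2 * n)) = -1 := by rw [tp_natCast, e.tn]

theorem tp_sig (i : ZMod (2 * n)) : FiniteField.frobeniusAlgHom F E (tp e i) * tp e i = 1 := by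
  unfold tp
  rw [map_pow, ← mul_pow, e.ts, one_pow]

theorem tp_ne (i : ZMod (2 * n)) : tp e i ≠ 0 := pow_ne_zero _ (t_ne e)

theorem tp_neg (i : ZMod (2 * n)) : tp e (-i) = FiniteField.frobeniusAlgHom F E (tp e i) := by
  have h1 : tp e (-i) * tp e i = 1 := by rw [← tp_add, neg_add_cancel, tp_zero]
  exact mul_right_cancel₀ (tp_ne e i) (h1.trans (tp_sig e i).symm)

/-- the action -/
noncomputable def qact (g : QuaternionGroup n) (x : E) : E :=
  match g with
  | .a i => tp e i * x
  | .xa i => e.δ * FiniteField.frobeniusAlgHom F E (tp e i * x)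

include hfr in
theorem exists_act (h3 : Fintype.card F % 4 = 3) :
    Nonempty (Act (QuaternionGroup n) (a (n : ZMod (2 * n))) (Df (F := F) e.κ)) := by
  have hinj := (algebraMap F E).injective
  have mul' : ∀ (g h : QuaternionGroup n) (x : E), qact e (g * h) x = qact e g (qact e h x) := by
    rintro (i | i) (j | j) x
    · rw [a_mul_a]
      simp only [qact]
      rw [tp_add]; ring
    · rw [a_mul_xa]
      simp only [qact]
      rw [sub_eq_add_neg, tp_add, tp_neg, map_mul, map_mul, map_mul, sig_sig hfr]
      ring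
    · rw [xa_mul_a]
      simp only [qact]
      rw [tp_add, mul_assoc]
    · rw [xa_mul_xa]
      simp only [qact]
      rw [sub_eq_add_neg, tp_add, tp_add, tp_neg, tp_n, map_mul, map_mul, map_mul, map_mul,
        sig_sig hfr, sig_sig hfr]
      linear_combination (-(FiniteField.frobeniusAlgHom F E (tp e i) * tp e j * x)) * e.δs
  have smul' : ∀ (g : QuaternionGroup n) (l : F) (x : E), qact e g (l • x) = l • qact e g x := by
    rintro (i | i) l x
    · simp only [qact]
      rw [mul_smul_comm]
    · simp only [qact]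
      rw [mul_smul_comm, map_smul, mul_smul_comm]
  refine ⟨⟨qact e, fun x => ?_, mul', smul', fun x => ?_, ?_, ?_⟩⟩
  · rw [one_def]
    simp only [qact]
    rw [tp_zero, one_mul]
  · simp only [qact]
    rw [tp_n, neg_one_mul]
  · rintro (i | i) x y
    · apply hinj
      rw [algD hfr e.κs, algD hfr e.κs]
      simp only [qact]
      rw [map_mul, map_mul]
      linear_combination (e.κ * (FiniteField.frobeniusAlgHom F E x * y -
        x * FiniteField.frobeniusAlgHom F E y)) * (tp_sig e i)
    · apply hinj
      rw [algD hfr e.κs, algD hfr e.κs]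
      simp only [qact]
      rw [map_mul, map_mul, map_mul, map_mul, map_mul, map_mul, sig_sig hfr, sig_sig hfr,
        sig_sig hfr]
      linear_combination (-(e.κ * (FiniteField.frobeniusAlgHom F E x * y -
        x * FiniteField.frobeniusAlgHom F E y))) * (FiniteField.frobeniusAlgHom F E (tp e i) *
          tp e i) * e.δs + (e.κ * (FiniteField.frobeniusAlgHom F E x * y -
        x * FiniteField.frobeniusAlgHom F E y)) * (tp_sig e i)
  · rintro (i | i) x l hx h
    · simp only [qact] at h
      rw [Algebra.smul_def] at h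
      have h1 : tp e i = algebraMap F E l := mul_right_cancel₀ hx h
      have h2 : FiniteField.frobeniusAlgHom F E (tp e i) = tp e i := by
        rw [h1, AlgHom.commutes]
      have h4 := tp_sig e i
      rw [h2] at h4
      unfold tp at h4
      rw [← pow_add] at h4
      have h5 := e.tord _ h4
      have h6 : n ∣ i.val := by
        rw [← two_mul] at h5
        exact Nat.dvd_of_mul_dvd_mul_left (by norm_num) h5
      have h7 : i.val < 2 * n := ZMod.val_lt i
      have hn0 : 0 < n := Nat.pos_of_ne_zero (NeZero.ne n)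
      obtain ⟨c, hc⟩ := h6
      have h8 : c < 2 := by
        rw [hc, mul_comm] at h7
        exact Nat.lt_of_mul_lt_mul_right h7
      have hi : i = ((n * c : ℕ) : ZMod (2 * n)) := by rw [← hc, ZMod.natCast_zmod_val]
      interval_cases c
      · left
        rw [hi, one_def]; simp
      · right
        rw [hi, mul_one]
    · exfalso
      have h1 := mul' (xa i) (xa i) x
      rw [xa_mul_xa, h, smul', h, smul_smul, add_sub_cancel_right] at h1
      have h2 : qact e (a (n : ZMod (2 * n))) x = -x := by
        simp only [qact]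
        rw [tp_n, neg_one_mul]
      rw [h2, Algebra.smul_def] at h1
      have h4 : algebraMap F E (l * l) = algebraMap F E (-1) := by
        rw [map_neg, map_one]
        apply mul_right_cancel₀ hx
        rw [← h1]; ring
      have h5 := hinj h4
      have h6 : IsSquare (-1 : F) := ⟨l, h5.symm⟩
      rw [FiniteField.isSquare_neg_one_iff] at h6
      exact h6 h3

end act

end fld

section ex

open QuaternionGroup

/-- the quaternion group acts -/
theorem exists_all (F : Type) [Field F] [Fintype F] [DecidableEq F] (h3 : Fintype.card F % 4 = 3)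
    (n : ℕ) [NeZero n] (hn : 2 * n ∣ Fintype.card F + 1) :
    ∃ (E : Type) (_ : AddCommGroup E) (_ : Module F E) (_ : Fintype E) (_ : DecidableEq E)
      (D : E → E → F), Fintype.card E = Fintype.card F ^ 2 ∧ Alt D ∧
      Nonempty (Act (QuaternionGroup n) (a (n : ZMod (2 * n))) D) := by
  classical
  obtain ⟨p, hp⟩ := CharP.exists F
  have : Fact p.Prime := ⟨CharP.char_is_prime F p⟩
  let E := FiniteField.Extension F p 2
  have : Fintype E := Fintype.ofFinite E
  have hfr : Module.finrank F E = 2 := FiniteField.finrank_extension F p 2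
  obtain ⟨e⟩ := exists_elts (F := F) (E := E) hfr h3 hn
  exact ⟨E, inferInstance, inferInstance, inferInstance, inferInstance, Df (F := F) e.κ,
    card_E hfr, alt_Df hfr e.κ0 e.κs, exists_act hfr e h3⟩

end ex

end Pool.Agent.K1H39.Fam
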