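import Pool.Agent.K1H39.Fam.Pair

/-! Skew conference matrices with a group of automorphisms, from alternating forms. -/

set_option autoImplicit false
set_option linter.unusedSectionVars false

namespace Pool.Agent.K1H39.Fam

open Finset
open Pool.Agent.Y342.SK (Sg)

/-! ### representatives modulo an involution -/

section trans

variable {G : Type} [Group G] [Fintype G] [DecidableEq G]

/-- the equivalence relation of a central involution -/
def zset (z : G) (hz2 : z * z = 1) : Setoid G where
  r g h := g = h ∨ g = z * h
  iseqv := {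
    refl := fun _ => Or.inl rfl
    symm := by
      rintro x y (h | h)
      · exact Or.inl h.symm
      · right; rw [h, ← mul_assoc, hz2, one_mul]
    trans := by
      rintro x y w (h | h) (h' | h')
      · left; rw [h, h']
      · right; rw [h, h']
      · right; rw [h, h']
      · left; rw [h, h', ← mul_assoc, hz2, one_mul] }

instance (z : G) (hz2 : z * z = 1) : DecidableRel (zset z hz2).r := fun g h =>
  inferInstanceAs (Decidable (g = h ∨ g = z * h))

/-- classes -/
abbrev Hq (z : G) (hz2 : z * z = 1) : Type := Quotient (zset z hz2)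

variable {z : G} {hz2 : z * z = 1}

/-- representative -/
noncomputable def rp (h : Hq z hz2) : G := Quotient.out h

theorem rp_cases (g : G) : g = rp (Quotient.mk (zset z hz2) g) ∨
    g = z * rp (Quotient.mk (zset z hz2) g) := by
  have h : (zset z hz2).r (Quotient.out (Quotient.mk (zset z hz2) g)) g :=
    Quotient.exact (Quotient.out_eq _)
  rcases h with h | h
  · left; exact h.symm
  · right
    show g = z * Quotient.out _
    rw [h, ← mul_assoc, hz2, one_mul]

theorem rp_eq {h h' : Hq z hz2} (e : rp h = rp h' ∨ rp h = z * rp h') : h = h' := by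
  have h1 : (zset z hz2).r (Quotient.out h) (Quotient.out h') := e
  have h2 := Quotient.sound (s := zset z hz2) h1
  rwa [Quotient.out_eq, Quotient.out_eq] at h2

theorem sum_rp (hz1 : z ≠ 1) (f : G → ℤ) (hf : ∀ g, f (z * g) = f g) :
    ∑ g, f g = 2 * ∑ h : Hq z hz2, f (rp h) := by
  have hb : Function.Bijective (fun x : Bool × Hq z hz2 => if x.1 then rp x.2 else z * rp x.2) := by
    constructor
    · rintro ⟨a, h⟩ ⟨b, h'⟩ hab
      simp only at hab
      cases a <;> cases b <;> simp only [if_true, Bool.false_eq_true, if_false] at hab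
      · have := mul_left_cancel hab
        rw [rp_eq (Or.inl this)]
      · have h1 : h' = h := rp_eq (Or.inr hab.symm)
        rw [h1] at hab
        exact absurd (mul_eq_right.1 hab) hz1
      · have h1 : h = h' := rp_eq (Or.inr hab)
        rw [h1] at hab
        exact absurd (mul_eq_right.1 hab.symm) hz1
      · rw [rp_eq (Or.inl hab)]
    · intro g
      rcases rp_cases (z := z) (hz2 := hz2) g with h | h
      · exact ⟨(true, Quotient.mk _ g), by simpa using h.symm⟩
      · exact ⟨(false, Quotient.mk _ g), by simpa using h.symm⟩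
  rw [← (Equiv.ofBijective _ hb).sum_comp, Fintype.sum_prod_type, Fintype.sum_bool]
  simp only [Equiv.ofBijective_apply, if_true, Bool.false_eq_true, if_false, hf]
  ring

theorem card_rp (hz1 : z ≠ 1) : Fintype.card G = 2 * Fintype.card (Hq z hz2) := by
  have := sum_rp (hz2 := hz2) hz1 (fun _ => 1) (fun _ => rfl)
  simp only [sum_const, card_univ, nsmul_eq_mul, mul_one] at this
  exact_mod_cast this

end trans

/-! ### alternating forms -/

section alt

variable {F E : Type} [Field F] [Fintype F] [DecidableEq F] [AddCommGroup E] [Module F E]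
  [Fintype E] [DecidableEq E]

/-- a nondegenerate alternating form on a plane -/
structure Alt (D : E → E → F) : Prop where
  add : ∀ x y y', D x (y + y') = D x y + D x y'
  smul : ∀ (l : F) x y, D x (l • y) = l * D x y
  symm : ∀ x y, D y x = - D x y
  self : ∀ x, D x x = 0
  nd : ∀ x y, x ≠ 0 → D x y = 0 → ∃ l : F, y = l • x

/-- the quadratic character -/
def qc (a : F) : ℤ := quadraticChar F a

theorem qc_zero : qc (0 : F) = 0 := by unfold qc; exact quadraticChar_zero

theorem qc_mul (a b : F) : qc (a * b) = qc a * qc b := by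
  unfold qc; exact map_mul (quadraticChar F) a b

theorem qc_sg {a : F} (ha : a ≠ 0) : Sg (qc a) := quadraticChar_dichotomy ha

theorem qc_neg (h3 : Fintype.card F % 4 = 3) (a : F) : qc (-a) = - qc a := by
  have h1 : quadraticChar F (-1) = -1 := by
    rw [quadraticChar_eq_neg_one_iff_not_one (neg_ne_zero.2 one_ne_zero),
      quadraticChar_one_iff_isSquare (neg_ne_zero.2 one_ne_zero), FiniteField.isSquare_neg_one_iff]
    simpa using h3
  rw [show -a = (-1) * a by ring, qc_mul]
  unfold qc
  rw [h1]
  ring

variable {D : E → E → F}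

theorem Alt.smul_left (hD : Alt D) (l : F) (x y : E) : D (l • x) y = l * D x y := by
  rw [hD.symm, hD.smul, hD.symm]; ring

theorem Alt.neg (hD : Alt D) (x y : E) : D x (-y) = - D x y := by
  have := hD.smul (-1) x y
  rwa [neg_one_smul, neg_one_mul] at this

theorem Alt.sum_zero (hD : Alt D) (h3 : Fintype.card F % 4 = 3) {x y : E} (hxy : D x y ≠ 0) :
    ∑ w : E, qc (D x w) * qc (D y w) = 0 := by
  have hyx : D y x ≠ 0 := by rw [hD.symm]; exact neg_ne_zero.2 hxy
  let τ : E → E := fun w => (2 * D y w / D y x) • x + -w
  have h1 : ∀ w, D y (τ w) = D y w := by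
    intro w
    simp only [τ]
    rw [hD.add, hD.smul, hD.neg, div_mul_cancel₀ _ hyx]
    ring
  have h2 : ∀ w, D x (τ w) = - D x w := by
    intro w
    simp only [τ]
    rw [hD.add, hD.smul, hD.neg, hD.self]
    ring
  have h4 : Function.Involutive τ := by
    intro w
    have : τ (τ w) = (2 * D y (τ w) / D y x) • x + -(τ w) := rfl
    rw [this, h1]
    simp only [τ]
    abel
  have h5 := Equiv.sum_comp (h4.toPerm τ) (fun w => qc (D x w) * qc (D y w))
  have h6 : ∀ w, qc (D x (h4.toPerm τ w)) * qc (D y (h4.toPerm τ w)) =
      -(qc (D x w) * qc (D y w)) := by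
    intro w
    rw [show h4.toPerm τ w = τ w from rfl, h1, h2, qc_neg h3]
    ring
  simp only [h6, sum_neg_distrib] at h5
  linarith

/-- a group of automorphisms of the form, which acts freely on the points -/
structure Act (G : Type) [Group G] (z : G) (D : E → E → F) where
  φ : G → E → E
  one : ∀ x, φ 1 x = x
  mul : ∀ g h x, φ (g * h) x = φ g (φ h x)
  smul : ∀ g (l : F) x, φ g (l • x) = l • φ g x
  zz : ∀ x, φ z x = -x
  form : ∀ g x y, D (φ g x) (φ g y) = D x y
  free : ∀ g x (l : F), x ≠ 0 → φ g x = l • x → g = 1 ∨ g = z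

end alt

end Pool.Agent.K1H39.Fam
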