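import Pool.Agent.K1H39.Fam.Asm
import Pool.Agent.K1H39.Fam.Conf

/-!
# Hadamard matrices of order `4 (q + 1 + e)` for Paley orders `e`
-/

set_option autoImplicit false

namespace Pool.Agent.K1H39.Fam

open QuaternionGroup
open Pool.Agent.H108R3.Had (HasHad)
open Pool.Agent.Y342.SK (IsCoreG Sg)
open Pool.Agent.W851.Had (tow)

/-- negaperiodic pairs for the Paley orders -/
theorem exists_np {q' k e : ℕ} (hq' : q' = 1 ∨ (IsPrimePow q' ∧ Odd q'))
    (he : e = 2 ^ k * (q' + 1)) (h4 : e = 2 ∨ 4 ∣ e) :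
    ∃ n : ℕ, 0 < n ∧ 2 * n = e ∧ ∃ A B, NP n A B := by
  rcases hq' with rfl | ⟨hq', hodd⟩
  · exact ⟨2 ^ k * 1, by positivity, by rw [he]; ring, NP.two_pow ⟨_, _, NP.one⟩ k⟩
  · obtain ⟨p, j, hp, hj, rfl⟩ := hq'
    have hp' : p.Prime := hp.nat_prime
    have : Fact p.Prime := ⟨hp'⟩
    have : Fintype (GaloisField p j) := Fintype.ofFinite _
    have hcard : Fintype.card (GaloisField p j) = p ^ j := by
      rw [← Nat.card_eq_fintype_card, GaloisField.card p j (by omega)]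
    classical
    have hodd' : p ^ j % 2 = 1 := Nat.odd_iff.1 hodd
    by_cases h3 : p ^ j % 4 = 3
    · obtain ⟨n, hn⟩ : ∃ n, 2 * n = p ^ j + 1 := ⟨(p ^ j + 1) / 2, by omega⟩
      have hn0 : 0 < n := by omega
      have : NeZero n := ⟨by omega⟩
      obtain ⟨A, B, hAB⟩ := perf_field (GaloisField p j) (by rw [hcard]; exact h3) n
        (by rw [hcard, hn])
      exact ⟨2 ^ k * n, by positivity, by rw [he, ← hn]; ring, NP.two_pow ⟨A, B, hAB⟩ k⟩
    · have hk : k ≠ 0 := by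
        rintro rfl
        rw [pow_zero, one_mul] at he
        have : 1 < p ^ j := Nat.one_lt_pow (by omega) hp'.one_lt
        omega
      obtain ⟨k, rfl⟩ := Nat.exists_eq_succ_of_ne_zero hk
      obtain ⟨A, B, hAB⟩ := np_conf (GaloisField p j) (by rw [hcard]; exact hodd')
      rw [hcard] at hAB
      refine ⟨2 ^ k * (p ^ j + 1), by positivity, by rw [he, pow_succ]; ring,
        NP.two_pow ⟨A, B, hAB⟩ k⟩

theorem main_fam : ∃ C : ℕ, 2 ≤ C ∧ ∀ N q q' k e t : ℕ, IsPrimePow q →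
    (q' = 1 ∨ (IsPrimePow q' ∧ Odd q')) → e = 2 ^ k * (q' + 1) → (e = 2 ∨ 4 ∣ e) →
    q ≤ tow N → 2 ^ C ^ (N + 1) ≤ t → 2 ^ t * (2 * e) ∣ q + 1 + 2 * e →
    HasHad (4 * (q + 1 + e)) := by
  obtain ⟨C₀, hC₀, hs⟩ := Pool.Agent.Y342.SK.main_skew
  refine ⟨C₀, hC₀, fun N q q' k e t hq hq' he h4e hqN ht hdv => ?_⟩
  obtain ⟨n, hn0, hn, A, B, hAB⟩ := exists_np hq' he h4e
  rw [← hn] at hdv ⊢
  have : NeZero n := ⟨by omega⟩
  obtain ⟨c, hc⟩ := hdv
  have hq2 : 2 ≤ q := hq.two_le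
  have h1 : 1 ≤ 2 ^ C₀ ^ (N + 1) := Nat.one_le_two_pow
  have h2 : 2 ^ t = 2 * 2 ^ (t - 1) := by
    conv_lhs => rw [show t = 1 + (t - 1) by omega, pow_add]
    norm_num
  obtain ⟨g, hg⟩ : ∃ g, g + 1 = 2 ^ t * c := by
    refine ⟨2 ^ t * c - 1, ?_⟩
    rcases Nat.eq_zero_or_pos c with h0 | h0
    · rw [h0, mul_zero] at hc; omega
    · have : 0 < 2 ^ t * c := by positivity
      omega
  have h3 : q + 1 = 4 * n * g := by
    have : q + 1 + 2 * (2 * n) = 4 * n * (g + 1) := by rw [hc, hg]; ring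
    have h5 : 4 * n * (g + 1) = 4 * n * g + 2 * (2 * n) := by ring
    omega
  have h4 : g ≤ q := by
    have : g * 1 ≤ g * (4 * n) := Nat.mul_le_mul_left _ (by omega)
    have h6 : g * (4 * n) = 4 * n * g := by ring
    rcases Nat.eq_zero_or_pos g with h0 | h0
    · omega
    · nlinarith
  obtain ⟨S, hS⟩ := Pool.Agent.Y342.SK.core_of hs (v := g) (n := N) (by omega) ht ⟨c, hg⟩
  obtain ⟨p, j, hp, hj, rfl⟩ := hq
  have hp' : p.Prime := hp.nat_prime
  have : Fact p.Prime := ⟨hp'⟩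
  have : Fintype (GaloisField p j) := Fintype.ofFinite _
  have hcard : Fintype.card (GaloisField p j) = p ^ j := by
    rw [← Nat.card_eq_fintype_card, GaloisField.card p j (by omega)]
  classical
  have h8 := had_perf (GaloisField p j) n (g := g) (by rw [hcard]; exact h3) (mq_perf hAB) hS.toG
  rwa [hcard] at h8

end Pool.Agent.K1H39.Fam
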