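import Pool.Agent.Y342.SK.Sym

/-! Perfect sign functions on quaternion groups. -/

set_option autoImplicit false
set_option linter.unusedSectionVars false

namespace Pool.Agent.K1H39.Fam

open Finset
open Pool.Agent.Y342.SK (Sg)

/-- a sign function, odd with respect to `z`, with perfect autocorrelation -/
structure Perf {G : Type} [Group G] [Fintype G] [DecidableEq G] (z : G) (m : G → ℤ) : Prop where
  sg : ∀ g, Sg (m g)
  odd : ∀ g, m (z * g) = - m g
  cor : ∀ c, ∑ u, m u * m (u * c) =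
    if c = 1 then (Fintype.card G : ℤ) else if c = z then -(Fintype.card G : ℤ) else 0

/-- negaperiodic pairs with perfect autocorrelation -/
structure NP (n : ℕ) (A B : ℤ → ℤ) : Prop where
  A1 : ∀ i, Sg (A i)
  B1 : ∀ i, Sg (B i)
  An : ∀ i, A (i + n) = - A i
  Bn : ∀ i, B (i + n) = - B i
  cor : ∀ s : ℤ, ¬ (n : ℤ) ∣ s →
    ∑ i ∈ range (2 * n), (A i * A (i + s) + B i * B (i + s)) = 0

theorem sum_range_double {β : Type} [AddCommMonoid β] (n : ℕ) (f : ℕ → β) :
    ∑ i ∈ range (2 * n), f i = ∑ j ∈ range n, (f (2 * j) + f (2 * j + 1)) := by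
  induction n with
  | zero => simp
  | succ n ih =>
    rw [show 2 * (n + 1) = 2 * n + 1 + 1 by ring, sum_range_succ, sum_range_succ, ih,
      sum_range_succ, add_assoc]

theorem NP.double {n : ℕ} {A B : ℤ → ℤ} (h : NP n A B) :
    NP (2 * n) (fun i => if i % 2 = 0 then A (i / 2) else B (i / 2))
      (fun i => if i % 2 = 0 then A (i / 2) else -B (i / 2)) := by
  have hsg : ∀ x : ℤ, Sg x → Sg (-x) := by
    intro x hx; rcases hx with h | h <;> rw [h] <;> simp [Sg]
  refine ⟨fun i => ?_, fun i => ?_, fun i => ?_, fun i => ?_, fun s hs => ?_⟩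
  · split_ifs
    · exact h.A1 _
    · exact h.B1 _
  · split_ifs
    · exact h.A1 _
    · exact hsg _ (h.B1 _)
  · have e1 : (i + ((2 * n : ℕ) : ℤ)) % 2 = i % 2 := by push_cast; omega
    have e2 : (i + ((2 * n : ℕ) : ℤ)) / 2 = i / 2 + n := by push_cast; omega
    simp only [e1, e2, h.An, h.Bn]
    split_ifs <;> rfl
  · have e1 : (i + ((2 * n : ℕ) : ℤ)) % 2 = i % 2 := by push_cast; omega
    have e2 : (i + ((2 * n : ℕ) : ℤ)) / 2 = i / 2 + n := by push_cast; omega
    simp only [e1, e2, h.An, h.Bn]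
    split_ifs <;> rfl
  · rw [sum_range_double]
    rcases Int.even_or_odd' s with ⟨r, hr | hr⟩
    · have hr' : ¬ (n : ℤ) ∣ r := by
        rintro ⟨c, hc⟩
        apply hs
        refine ⟨c, ?_⟩
        push_cast
        rw [hr, hc]; ring
      have := h.cor r hr'
      have e : ∀ j : ℕ, ((if ((2 * j : ℕ) : ℤ) % 2 = 0 then A (((2 * j : ℕ) : ℤ) / 2) else
          B (((2 * j : ℕ) : ℤ) / 2)) *
          (if (((2 * j : ℕ) : ℤ) + s) % 2 = 0 then A ((((2 * j : ℕ) : ℤ) + s) / 2) else
          B ((((2 * j : ℕ) : ℤ) + s) / 2)) +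
          (if ((2 * j : ℕ) : ℤ) % 2 = 0 then A (((2 * j : ℕ) : ℤ) / 2) else
          -B (((2 * j : ℕ) : ℤ) / 2)) *
          (if (((2 * j : ℕ) : ℤ) + s) % 2 = 0 then A ((((2 * j : ℕ) : ℤ) + s) / 2) else
          -B ((((2 * j : ℕ) : ℤ) + s) / 2))) +
          ((if ((2 * j + 1 : ℕ) : ℤ) % 2 = 0 then A (((2 * j + 1 : ℕ) : ℤ) / 2) else
          B (((2 * j + 1 : ℕ) : ℤ) / 2)) *
          (if (((2 * j + 1 : ℕ) : ℤ) + s) % 2 = 0 then A ((((2 * j + 1 : ℕ) : ℤ) + s) / 2) else
          B ((((2 * j + 1 : ℕ) : ℤ) + s) / 2)) +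
          (if ((2 * j + 1 : ℕ) : ℤ) % 2 = 0 then A (((2 * j + 1 : ℕ) : ℤ) / 2) else
          -B (((2 * j + 1 : ℕ) : ℤ) / 2)) *
          (if (((2 * j + 1 : ℕ) : ℤ) + s) % 2 = 0 then A ((((2 * j + 1 : ℕ) : ℤ) + s) / 2) else
          -B ((((2 * j + 1 : ℕ) : ℤ) + s) / 2))) =
          2 * (A j * A (j + r) + B j * B (j + r)) := by
        intro j
        have a1 : ((2 * j : ℕ) : ℤ) % 2 = 0 := by push_cast; omega
        have a2 : ((2 * j : ℕ) : ℤ) / 2 = j := by push_cast; omega
        have a3 : (((2 * j : ℕ) : ℤ) + s) % 2 = 0 := by push_cast; omega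
        have a4 : (((2 * j : ℕ) : ℤ) + s) / 2 = j + r := by push_cast; omega
        have b1 : ¬ ((2 * j + 1 : ℕ) : ℤ) % 2 = 0 := by push_cast; omega
        have b2 : ((2 * j + 1 : ℕ) : ℤ) / 2 = j := by push_cast; omega
        have b3 : ¬ (((2 * j + 1 : ℕ) : ℤ) + s) % 2 = 0 := by push_cast; omega
        have b4 : (((2 * j + 1 : ℕ) : ℤ) + s) / 2 = j + r := by push_cast; omega
        rw [if_pos a1, if_pos a1, if_pos a3, if_pos a3, if_neg b1, if_neg b1, if_neg b3, if_neg b3,
          a2, a4, b2, b4]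
        ring
      rw [sum_congr rfl fun j _ => e j, ← mul_sum, this, mul_zero]
    · have e : ∀ j : ℕ, ((if ((2 * j : ℕ) : ℤ) % 2 = 0 then A (((2 * j : ℕ) : ℤ) / 2) else
          B (((2 * j : ℕ) : ℤ) / 2)) *
          (if (((2 * j : ℕ) : ℤ) + s) % 2 = 0 then A ((((2 * j : ℕ) : ℤ) + s) / 2) else
          B ((((2 * j : ℕ) : ℤ) + s) / 2)) +
          (if ((2 * j : ℕ) : ℤ) % 2 = 0 then A (((2 * j : ℕ) : ℤ) / 2) else
          -B (((2 * j : ℕ) : ℤ) / 2)) *
          (if (((2 * j : ℕ) : ℤ) + s) % 2 = 0 then A ((((2 * j : ℕ) : ℤ) + s) / 2) else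
          -B ((((2 * j : ℕ) : ℤ) + s) / 2))) +
          ((if ((2 * j + 1 : ℕ) : ℤ) % 2 = 0 then A (((2 * j + 1 : ℕ) : ℤ) / 2) else
          B (((2 * j + 1 : ℕ) : ℤ) / 2)) *
          (if (((2 * j + 1 : ℕ) : ℤ) + s) % 2 = 0 then A ((((2 * j + 1 : ℕ) : ℤ) + s) / 2) else
          B ((((2 * j + 1 : ℕ) : ℤ) + s) / 2)) +
          (if ((2 * j + 1 : ℕ) : ℤ) % 2 = 0 then A (((2 * j + 1 : ℕ) : ℤ) / 2) else
          -B (((2 * j + 1 : ℕ) : ℤ) / 2)) *
          (if (((2 * j + 1 : ℕ) : ℤ) + s) % 2 = 0 then A ((((2 * j + 1 : ℕ) : ℤ) + s) / 2) else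
          -B ((((2 * j + 1 : ℕ) : ℤ) + s) / 2))) = 0 := by
        intro j
        have a1 : ((2 * j : ℕ) : ℤ) % 2 = 0 := by push_cast; omega
        have a3 : ¬ (((2 * j : ℕ) : ℤ) + s) % 2 = 0 := by push_cast; omega
        have b1 : ¬ ((2 * j + 1 : ℕ) : ℤ) % 2 = 0 := by push_cast; omega
        have b3 : (((2 * j + 1 : ℕ) : ℤ) + s) % 2 = 0 := by push_cast; omega
        rw [if_pos a1, if_pos a1, if_neg a3, if_neg a3, if_neg b1, if_neg b1, if_pos b3, if_pos b3]
        ring
      rw [sum_congr rfl fun j _ => e j, sum_const_zero]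

theorem NP.one : NP 1 (fun i => if i % 2 = 0 then 1 else -1) (fun i => if i % 2 = 0 then 1 else -1) := by
  refine ⟨fun i => ?_, fun i => ?_, fun i => ?_, fun i => ?_, fun s hs => ?_⟩
  · simp only [Sg]; split_ifs <;> simp
  · simp only [Sg]; split_ifs <;> simp
  · by_cases h : i % 2 = 0
    · have h' : ¬ (i + ((1 : ℕ) : ℤ)) % 2 = 0 := by push_cast; omega
      simp only [if_pos h, if_neg h']
    · have h' : (i + ((1 : ℕ) : ℤ)) % 2 = 0 := by push_cast; omega
      simp only [if_neg h, if_pos h', neg_neg]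
  · by_cases h : i % 2 = 0
    · have h' : ¬ (i + ((1 : ℕ) : ℤ)) % 2 = 0 := by push_cast; omega
      simp only [if_pos h, if_neg h']
    · have h' : (i + ((1 : ℕ) : ℤ)) % 2 = 0 := by push_cast; omega
      simp only [if_neg h, if_pos h', neg_neg]
  · exact absurd (by simp) hs

theorem NP.two_pow {n : ℕ} (h : ∃ A B, NP n A B) (k : ℕ) : ∃ A B, NP (2 ^ k * n) A B := by
  induction k with
  | zero => simpa using h
  | succ k ih =>
    obtain ⟨A, B, hAB⟩ := ih
    have := hAB.double
    rw [show 2 * (2 ^ k * n) = 2 ^ (k + 1) * n by ring] at this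
    exact ⟨_, _, this⟩

/-! ### quaternion groups -/

section quat

variable {n : ℕ} [NeZero n]

open QuaternionGroup

/-- sums over the quaternion group -/
theorem sum_quat {β : Type} [AddCommMonoid β] (f : QuaternionGroup n → β) :
    ∑ g, f g = ∑ i : ZMod (2 * n), f (a i) + ∑ i : ZMod (2 * n), f (xa i) := by
  let e : ZMod (2 * n) ⊕ ZMod (2 * n) ≃ QuaternionGroup n :=
    { toFun := Sum.elim a xa
      invFun := fun g => match g with
        | a i => Sum.inl i
        | xa i => Sum.inr i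
      left_inv := by rintro (x | x) <;> rfl
      right_inv := by rintro (x | x) <;> rfl }
  rw [← e.sum_comp, Fintype.sum_sum_type]
  rfl

theorem sum_zmod {β : Type} [AddCommMonoid β] (N : ℕ) [NeZero N] (f : ZMod N → β) :
    ∑ i ∈ range N, f (i : ZMod N) = ∑ i : ZMod N, f i := by
  refine Finset.sum_nbij' (fun i => (i : ZMod N)) (fun i => i.val) (fun i _ => mem_univ _)
    (fun i _ => mem_range.2 (ZMod.val_lt i)) (fun i hi => ?_) (fun i _ => ?_) (fun i _ => rfl)
  · exact ZMod.val_natCast_of_lt (mem_range.1 hi)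
  · exact ZMod.natCast_zmod_val i

theorem NP.per {A B : ℤ → ℤ} (h : NP n A B) :
    (∀ i (k : ℤ), A (i + 2 * n * k) = A i) ∧ (∀ i (k : ℤ), B (i + 2 * n * k) = B i) := by
  have hA : ∀ i, A (i + 2 * n) = A i := by
    intro i
    have h1 := h.An (i + n)
    have h2 := h.An i
    rw [show i + 2 * (n : ℤ) = i + n + n by ring, h1, h2, neg_neg]
  have hB : ∀ i, B (i + 2 * n) = B i := by
    intro i
    have h1 := h.Bn (i + n)
    have h2 := h.Bn i
    rw [show i + 2 * (n : ℤ) = i + n + n by ring, h1, h2, neg_neg]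
  have key : ∀ (F : ℤ → ℤ), (∀ i, F (i + 2 * n) = F i) → ∀ i (k : ℤ), F (i + 2 * n * k) = F i := by
    intro F hF i k
    induction k using Int.induction_on with
    | zero => simp
    | succ k ih =>
      rw [show i + 2 * (n : ℤ) * ((k : ℤ) + 1) = i + 2 * n * k + 2 * n by ring, hF, ih]
    | pred k ih =>
      have := hF (i + 2 * (n : ℤ) * (-(k : ℤ) - 1))
      rw [show i + 2 * (n : ℤ) * (-(k : ℤ) - 1) + 2 * n = i + 2 * n * -(k : ℤ) by ring, ih] at this
      exact this.symm
  exact ⟨key A hA, key B hB⟩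

/-- periodic functions on residues -/
def zf (F : ℤ → ℤ) (i : ZMod (2 * n)) : ℤ := F i.val

theorem zf_cast {F : ℤ → ℤ} (hF : ∀ i (k : ℤ), F (i + 2 * n * k) = F i) (k : ℤ) :
    zf F ((k : ℤ) : ZMod (2 * n)) = F k := by
  unfold zf
  have : (((k : ZMod (2 * n)).val : ℕ) : ℤ) = k % ((2 * n : ℕ) : ℤ) := ZMod.val_intCast k
  rw [this, Int.emod_def]
  have h := hF k (-(k / ((2 * n : ℕ) : ℤ)))
  rw [← h]
  congr 1
  push_cast
  ring

/-- the function on the quaternion group -/
def mq (A B : ℤ → ℤ) : QuaternionGroup n → ℤ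
  | a i => zf A i
  | xa i => zf B i

theorem mq_perf {A B : ℤ → ℤ} (h : NP n A B) : Perf (a (n : ZMod (2 * n)) : QuaternionGroup n)
    (mq A B) := by
  obtain ⟨hA, hB⟩ := h.per
  have h2n : ((n : ZMod (2 * n)) + n) = 0 := by
    have : ((2 * n : ℕ) : ZMod (2 * n)) = 0 := ZMod.natCast_self _
    push_cast at this
    rw [← this]; ring
  have hAn : ∀ i : ZMod (2 * n), zf A ((n : ZMod (2 * n)) + i) = - zf A i := by
    intro i
    obtain ⟨k, rfl⟩ := ZMod.intCast_surjective i
    have : ((n : ZMod (2 * n)) + (k : ℤ)) = ((k + (n : ℤ) : ℤ) : ZMod (2 * n)) := by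
      push_cast; ring
    rw [this, zf_cast hA, zf_cast hA, h.An]
  have hBn : ∀ i : ZMod (2 * n), zf B ((n : ZMod (2 * n)) + i) = - zf B i := by
    intro i
    obtain ⟨k, rfl⟩ := ZMod.intCast_surjective i
    have : ((n : ZMod (2 * n)) + (k : ℤ)) = ((k + (n : ℤ) : ℤ) : ZMod (2 * n)) := by
      push_cast; ring
    rw [this, zf_cast hB, zf_cast hB, h.Bn]
  have hneg : (n : ZMod (2 * n)) = -n := by
    rw [eq_neg_iff_add_eq_zero]; exact h2n
  have hcard : (Fintype.card (QuaternionGroup n) : ℤ) = 2 * (2 * n) := by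
    rw [QuaternionGroup.card]; push_cast; ring
  have hs : ∀ s : ZMod (2 * n), ∑ i : ZMod (2 * n), (zf A i * zf A (i + s) + zf B i * zf B (i + s)) =
      if s = 0 then 2 * (2 * (n : ℤ)) else if s = n then -(2 * (2 * (n : ℤ))) else 0 := by
    intro s
    have hsq : ∀ x : ℤ, Sg x → x * x = 1 := by
      intro x hx; rcases hx with h | h <;> rw [h] <;> norm_num
    have hzA : ∀ i : ZMod (2 * n), zf A i * zf A i = 1 := fun i => hsq _ (h.A1 _)
    have hzB : ∀ i : ZMod (2 * n), zf B i * zf B i = 1 := fun i => hsq _ (h.B1 _)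
    by_cases h0 : s = 0
    · rw [if_pos h0, h0]
      simp only [add_zero, hzA, hzB]
      rw [sum_const, card_univ, ZMod.card]
      simp
      ring
    · rw [if_neg h0]
      by_cases h1 : s = n
      · rw [if_pos h1, h1]
        have : ∀ i : ZMod (2 * n), zf A i * zf A (i + (n : ZMod (2 * n))) +
            zf B i * zf B (i + (n : ZMod (2 * n))) = -2 := by
          intro i
          rw [add_comm i, hAn, hBn]
          linarith [hzA i, hzB i]
        simp only [this]
        rw [sum_const, card_univ, ZMod.card]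
        simp
        ring
      · rw [if_neg h1]
        obtain ⟨k, rfl⟩ := ZMod.intCast_surjective s
        have hk : ¬ (n : ℤ) ∣ k := by
          rintro ⟨c, hc⟩
          rcases Int.even_or_odd' c with ⟨d, hd | hd⟩
          · apply h0
            rw [hc, hd]
            have : ((2 * n : ℕ) : ZMod (2 * n)) = 0 := ZMod.natCast_self _
            push_cast at this ⊢
            linear_combination (d : ZMod (2 * n)) * this
          · apply h1
            rw [hc, hd]
            have : ((2 * n : ℕ) : ZMod (2 * n)) = 0 := ZMod.natCast_self _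
            push_cast at this ⊢
            linear_combination (d : ZMod (2 * n)) * this
        rw [← sum_zmod, ← h.cor k hk]
        refine sum_congr rfl fun i _ => ?_
        have e1 : ((i : ℕ) : ZMod (2 * n)) = (((i : ℕ) : ℤ) : ZMod (2 * n)) := by push_cast; rfl
        have e2 : ((i : ℕ) : ZMod (2 * n)) + ((k : ℤ) : ZMod (2 * n)) =
            ((((i : ℕ) : ℤ) + k : ℤ) : ZMod (2 * n)) := by push_cast; rfl
        rw [e2, e1, zf_cast hA, zf_cast hA, zf_cast hB, zf_cast hB]
  refine ⟨fun g => ?_, fun g => ?_, fun c => ?_⟩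
  · rcases g with i | i
    · exact h.A1 _
    · exact h.B1 _
  · rcases g with i | i
    · show mq A B (a _ * a i) = - zf A i
      rw [a_mul_a]
      exact hAn i
    · show mq A B (a _ * xa i) = - zf B i
      rw [a_mul_xa]
      show zf B _ = _
      rw [show i - (n : ZMod (2 * n)) = n + i by rw [sub_eq_add_neg, ← hneg]; ring]
      exact hBn i
  · rw [sum_quat, hcard]
    rcases c with s | s
    · have e : ∑ i : ZMod (2 * n), mq A B (a i) * mq A B (a i * a s) +
          ∑ i : ZMod (2 * n), mq A B (xa i) * mq A B (xa i * a s) =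
          ∑ i : ZMod (2 * n), (zf A i * zf A (i + s) + zf B i * zf B (i + s)) := by
        rw [← sum_add_distrib]
        refine sum_congr rfl fun i _ => ?_
        rw [a_mul_a, xa_mul_a]
        rfl
      rw [e, hs]
      have h1 : (a s : QuaternionGroup n) = 1 ↔ s = 0 := by
        rw [one_def]
        constructor
        · intro h; injection h
        · intro h; rw [h]
      have h2 : (a s : QuaternionGroup n) = a (n : ZMod (2 * n)) ↔ s = n := by
        constructor
        · intro h; injection h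
        · intro h; rw [h]
      simp only [h1, h2]
    · have e : ∑ i : ZMod (2 * n), mq A B (a i) * mq A B (a i * xa s) +
          ∑ i : ZMod (2 * n), mq A B (xa i) * mq A B (xa i * xa s) =
          ∑ i : ZMod (2 * n), zf A i * zf B (s - i) - ∑ i : ZMod (2 * n), zf B i * zf A (s - i) := by
        rw [← sum_sub_distrib, ← sum_add_distrib]
        refine sum_congr rfl fun i _ => ?_
        rw [a_mul_xa, xa_mul_xa]
        show zf A i * zf B (s - i) + zf B i * zf A ((n : ZMod (2 * n)) + s - i) = _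
        rw [show (n : ZMod (2 * n)) + s - i = n + (s - i) by ring, hAn]
        ring
      have e2 : ∑ i : ZMod (2 * n), zf B i * zf A (s - i) =
          ∑ i : ZMod (2 * n), zf A i * zf B (s - i) := by
        rw [← (Equiv.subLeft s).sum_comp]
        refine sum_congr rfl fun i _ => ?_
        rw [Equiv.subLeft_apply, sub_sub_cancel, mul_comm]
      rw [e, e2, sub_self, if_neg, if_neg]
      · intro h; cases h
      · intro h; rw [one_def] at h; cases h

theorem np_of_perf {m : QuaternionGroup n → ℤ}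
    (h : Perf (a (n : ZMod (2 * n)) : QuaternionGroup n) m) : ∃ A B, NP n A B := by
  have h2n : ((n : ZMod (2 * n)) + n) = 0 := by
    have : ((2 * n : ℕ) : ZMod (2 * n)) = 0 := ZMod.natCast_self _
    push_cast at this
    rw [← this]; ring
  have hneg : (n : ZMod (2 * n)) = -n := by
    rw [eq_neg_iff_add_eq_zero]; exact h2n
  refine ⟨fun i => m (a (i : ZMod (2 * n))), fun i => m (xa (i : ZMod (2 * n))),
    fun i => h.sg _, fun i => h.sg _, fun i => ?_, fun i => ?_, fun s hs => ?_⟩
  · have := h.odd (a ((i : ℤ) : ZMod (2 * n)))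
    rw [a_mul_a] at this
    rw [← this]
    congr 2
    push_cast
    ring
  · have := h.odd (xa ((i : ℤ) : ZMod (2 * n)))
    rw [a_mul_xa] at this
    rw [← this]
    congr 2
    push_cast
    rw [sub_eq_add_neg, ← hneg]
  · have h1 := h.cor (a ((s : ℤ) : ZMod (2 * n)))
    have hs0 : ¬ (((s : ℤ) : ZMod (2 * n)) = 0) := by
      intro h0
      rw [ZMod.intCast_zmod_eq_zero_iff_dvd] at h0
      apply hs
      refine dvd_trans ?_ h0
      push_cast
      exact dvd_mul_left _ _
    have hsn : ¬ (((s : ℤ) : ZMod (2 * n)) = n) := by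
      intro h0
      have h3 : ((s - n : ℤ) : ZMod (2 * n)) = 0 := by push_cast; rw [h0, sub_self]
      rw [ZMod.intCast_zmod_eq_zero_iff_dvd] at h3
      apply hs
      have h4 : (n : ℤ) ∣ s - n := dvd_trans (by push_cast; exact dvd_mul_left _ _) h3
      exact (dvd_sub_self_right).1 h4
    rw [if_neg (by rw [one_def]; intro h; injection h with h; exact hs0 h),
      if_neg (by intro h; injection h with h; exact hsn h), sum_quat] at h1
    rw [sum_add_distrib]
    have e1 : ∑ i ∈ range (2 * n), m (a (((i : ℕ) : ℤ) : ZMod (2 * n))) *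
        m (a (((((i : ℕ) : ℤ) + s : ℤ)) : ZMod (2 * n))) =
        ∑ i : ZMod (2 * n), m (a i) * m (a i * a ((s : ℤ) : ZMod (2 * n))) := by
      rw [← sum_zmod]
      refine sum_congr rfl fun i _ => ?_
      rw [a_mul_a]
      push_cast
      rfl
    have e2 : ∑ i ∈ range (2 * n), m (xa (((i : ℕ) : ℤ) : ZMod (2 * n))) *
        m (xa (((((i : ℕ) : ℤ) + s : ℤ)) : ZMod (2 * n))) =
        ∑ i : ZMod (2 * n), m (xa i) * m (xa i * a ((s : ℤ) : ZMod (2 * n))) := by
      rw [← sum_zmod]
      refine sum_congr rfl fun i _ => ?_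
      rw [xa_mul_a]
      push_cast
      rfl
    rw [e1, e2]
    exact h1

end quat

end Pool.Agent.K1H39.Fam
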