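import Pool.Agent.K1H39.Fam.Pts

/-! The perfect function of a group which acts simply transitively on the projective line. -/

set_option autoImplicit false
set_option linter.unusedSectionVars false

namespace Pool.Agent.K1H39.Fam

open Finset
open Pool.Agent.Y342.SK (Sg)

variable {F E : Type} [Field F] [Fintype F] [DecidableEq F] [AddCommGroup E] [Module F E]
  [Fintype E] [DecidableEq E] {D : E → E → F}
variable {G : Type} [Group G] [Fintype G] [DecidableEq G] {z : G}

theorem perf_paley (T : Act G z D) (hD : Alt D) (hz2 : z * z = 1) (hz1 : z ≠ 1)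
    (hzc : ∀ g, z * g = g * z) (h3 : Fintype.card F % 4 = 3)
    (hE : Fintype.card E = Fintype.card F ^ 2) (hG : Fintype.card G = 2 * (Fintype.card F + 1)) :
    ∃ m : G → ℤ, Perf z m := by
  have hH : Fintype.card (Hq z hz2) = Fintype.card F + 1 := by
    have := card_rp (hz2 := hz2) hz1
    omega
  have hK : Fintype.card T.Kq = 1 := by
    have := T.card_pts hz2 hzc hE
    rw [Fintype.card_prod, hH] at this
    exact Nat.eq_of_mul_eq_mul_right (Nat.succ_pos _) (by rw [this, one_mul])
  obtain ⟨k, hk⟩ := Fintype.card_eq_one_iff.1 hK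
  obtain ⟨r, hr⟩ : ∃ r, r = T.rv k := ⟨_, rfl⟩
  have hr0 : r ≠ 0 := by rw [hr]; exact T.rv_ne k
  obtain ⟨f, hf⟩ : ∃ f : G → ℤ, f = fun g => qc (D r (T.φ g r)) := ⟨_, rfl⟩
  have hfe : ∀ g, f g = qc (D r (T.φ g r)) := by intro g; rw [hf]
  have hfz : ∀ g, f (z * g) = - f g := by
    intro g
    rw [hfe, hfe, T.mul, T.zz, hD.neg, qc_neg h3]
  have hfi : ∀ g, f g⁻¹ = - f g := by
    intro g
    rw [hfe, hfe, ← T.form g r, T.inv_right, hD.symm, qc_neg h3]
  have hf1 : f 1 = 0 := by rw [hfe, T.one, hD.self, qc_zero]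
  have hfz0 : f z = 0 := by
    have := hfz 1
    rwa [mul_one, hf1, neg_zero] at this
  have hDn : ∀ g, g ≠ 1 → g ≠ z → D r (T.φ g r) ≠ 0 := by
    intro g h1 h2 h0
    obtain ⟨l, hl⟩ := hD.nd _ _ hr0 h0
    rcases T.free g r l hr0 hl with h | h
    · exact h1 h
    · exact h2 h
  have hff : ∀ c, ∑ u, f u * f (u * c) = if c = 1 then 2 * (Fintype.card F : ℤ) else
      if c = z then -(2 * (Fintype.card F : ℤ)) else 0 := by
    have key : ∀ y : E, ∑ u : G, qc (D r (T.φ u r)) * qc (D y (T.φ u r)) =
        2 * ∑ p : T.Kq × Hq z hz2, qc (D r (T.vv hz2 p)) * qc (D y (T.vv hz2 p)) := by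
      intro y
      rw [sum_rp (hz2 := hz2) hz1 (fun u => qc (D r (T.φ u r)) * qc (D y (T.φ u r))) (by
        intro g
        simp only [T.mul, T.zz, hD.neg, qc_neg h3]; ring)]
      congr 1
      rw [Fintype.sum_prod_type]
      have : ∀ x : T.Kq, ∑ h : Hq z hz2, qc (D r (T.vv hz2 (x, h))) * qc (D y (T.vv hz2 (x, h))) =
          ∑ h : Hq z hz2, qc (D r (T.φ (rp h) r)) * qc (D y (T.φ (rp h) r)) := by
        intro x
        rw [hk x, hr]
        rfl
      simp only [this, sum_const, card_univ, hK, one_smul]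
    have hsq : ∑ u : G, qc (D r (T.φ u r)) * qc (D r (T.φ u r)) = 2 * (Fintype.card F : ℤ) := by
      have h1 : ∀ u : G, qc (D r (T.φ u r)) * qc (D r (T.φ u r)) =
          1 - (if u = 1 then 1 else 0) - (if u = z then 1 else 0) := by
        intro u
        by_cases hu1 : u = 1
        · rw [hu1, T.one, hD.self, qc_zero, if_pos rfl, if_neg (Ne.symm hz1)]; ring
        · by_cases hu2 : u = z
          · rw [hu2, if_neg hz1, if_pos rfl]
            have := hfz0
            rw [hfe] at this
            rw [this]; ring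
          · rw [if_neg hu1, if_neg hu2]
            rcases qc_sg (hDn u hu1 hu2) with h | h <;> rw [h] <;> norm_num
      simp only [h1, sum_sub_distrib, sum_const, card_univ, sum_ite_eq', mem_univ, if_true,
        nsmul_eq_mul, mul_one]
      rw [hG]
      push_cast
      ring
    intro c
    have h1 : ∑ u, f u * f (u * c) = ∑ u : G, qc (D r (T.φ u r)) * qc (D (T.φ c r) (T.φ u r)) := by
      rw [← Equiv.sum_comp (Equiv.inv G) (fun u => f u * f (u * c))]
      refine sum_congr rfl fun u _ => ?_
      rw [Equiv.inv_apply, hfi]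
      have a1 : f (u⁻¹ * c) = qc (D (T.φ u r) (T.φ c r)) := by
        rw [hfe, T.mul, ← T.form u r (T.φ u⁻¹ (T.φ c r)), T.inv_right]
      have a2 : qc (D (T.φ c r) (T.φ u r)) = -qc (D (T.φ u r) (T.φ c r)) := by
        rw [hD.symm, qc_neg h3]
      rw [a1, a2, hfe]
      ring
    rw [h1]
    by_cases hc1 : c = 1
    · rw [if_pos hc1, hc1, T.one, hsq]
    · rw [if_neg hc1]
      by_cases hc2 : c = z
      · rw [if_pos hc2, hc2, ← hsq, ← sum_neg_distrib]
        refine sum_congr rfl fun u _ => ?_
        have a1 : D (-r) (T.φ u r) = -D r (T.φ u r) := by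
          have := hD.smul_left (-1) r (T.φ u r)
          rwa [neg_one_smul, neg_one_mul] at this
        rw [T.zz, a1, qc_neg h3]
        ring
      · rw [if_neg hc2, key, T.two_rows hz2 hD hzc h3 (hDn c hc1 hc2), mul_zero]
  refine ⟨fun g => f g + ((if g = 1 then 1 else 0) - if g = z then 1 else 0), fun g => ?_,
    fun g => ?_, fun c => ?_⟩
  · by_cases h1 : g = 1
    · rw [h1, hf1, if_pos rfl, if_neg (Ne.symm hz1)]; simp [Sg]
    · by_cases h2 : g = z
      · rw [h2, hfz0, if_neg hz1, if_pos rfl]; simp [Sg]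
      · rw [if_neg h1, if_neg h2, sub_zero, add_zero, hfe]
        exact qc_sg (hDn g h1 h2)
  · have e1 : (z * g = 1) ↔ (g = z) := by
      constructor
      · intro h
        have := congrArg (fun x => z * x) h
        simp only [mul_one, ← mul_assoc, hz2, one_mul] at this
        exact this
      · intro h; rw [h, hz2]
    have e2 : (z * g = z) ↔ (g = 1) := mul_eq_left
    simp only [hfz, e1, e2]
    ring
  · have e0 : ∑ u : G, (f u + ((if u = 1 then 1 else 0) - if u = z then 1 else 0)) *
        (f (u * c) + ((if u * c = 1 then 1 else 0) - if u * c = z then 1 else 0)) =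
        ∑ u, f u * f (u * c) + ∑ u, f u * ((if u * c = 1 then 1 else 0) -
          if u * c = z then 1 else 0) + ∑ u, ((if u = 1 then (1 : ℤ) else 0) - if u = z then 1 else 0) *
          (f (u * c) + ((if u * c = 1 then 1 else 0) - if u * c = z then 1 else 0)) := by
      rw [← sum_add_distrib, ← sum_add_distrib]
      exact sum_congr rfl fun u _ => by ring
    have e1 : ∀ u, (u * c = 1) ↔ (u = c⁻¹) := fun u => mul_eq_one_iff_eq_inv
    have e2 : ∀ u, (u * c = z) ↔ (u = z * c⁻¹) := fun u => eq_mul_inv_iff_mul_eq.symm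
    have e3 : ∑ u, f u * ((if u * c = 1 then 1 else 0) - if u * c = z then 1 else 0) =
        2 * f c⁻¹ := by
      simp only [e1, e2, mul_sub, mul_ite, mul_one, mul_zero, sum_sub_distrib, sum_ite_eq',
        mem_univ, if_true, hfz]
      ring
    have e4 : ∑ u, ((if u = 1 then (1 : ℤ) else 0) - if u = z then 1 else 0) *
          (f (u * c) + ((if u * c = 1 then 1 else 0) - if u * c = z then 1 else 0)) =
        2 * f c + 2 * ((if c = 1 then 1 else 0) - if c = z then 1 else 0) := by
      simp only [sub_mul, ite_mul, one_mul, zero_mul, sum_sub_distrib, sum_ite_eq', mem_univ,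
        if_true, hfz]
      have e5 : (z * c = 1) ↔ (c = z) := by
        constructor
        · intro h
          have := congrArg (fun x => z * x) h
          simp only [mul_one, ← mul_assoc, hz2, one_mul] at this
          exact this
        · intro h; rw [h, hz2]
      have e6 : (z * c = z) ↔ (c = 1) := mul_eq_left
      simp only [e5, e6]
      ring
    rw [e0, hff, e3, e4, hfi, hG]
    by_cases hc1 : c = 1
    · rw [if_pos hc1, if_pos hc1, if_pos hc1, if_neg (by rw [hc1]; exact Ne.symm hz1)]
      push_cast; ring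
    · by_cases hc2 : c = z
      · rw [if_neg hc1, if_pos hc2, if_neg hc1, if_pos hc2, if_neg hc1, if_pos hc2]
        push_cast; ring
      · rw [if_neg hc1, if_neg hc2, if_neg hc1, if_neg hc2, if_neg hc1, if_neg hc2]
        ring

end Pool.Agent.K1H39.Fam
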