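import Pool.Agent.K1H39.Fam.Grp

/-! Points of the projective line and the commuting matrices. -/

set_option autoImplicit false
set_option linter.unusedSectionVars false

namespace Pool.Agent.K1H39.Fam

open Finset
open Pool.Agent.Y342.SK (Sg)

variable {F E : Type} [Field F] [Fintype F] [DecidableEq F] [AddCommGroup E] [Module F E]
  [Fintype E] [DecidableEq E] {D : E → E → F}
variable {G : Type} [Group G] [Fintype G] [DecidableEq G] {z : G}

namespace Act

variable (T : Act G z D)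

theorem inv_left (g : G) (x : E) : T.φ g⁻¹ (T.φ g x) = x := by
  rw [← T.mul, inv_mul_cancel, T.one]

theorem inv_right (g : G) (x : E) : T.φ g (T.φ g⁻¹ x) = x := by
  rw [← T.mul, mul_inv_cancel, T.one]

theorem zero (g : G) : T.φ g 0 = 0 := by
  have := T.smul g (0 : F) 0
  rwa [zero_smul, zero_smul] at this

theorem ne_zero (g : G) {x : E} (hx : x ≠ 0) : T.φ g x ≠ 0 := by
  intro h
  apply hx
  rw [← T.inv_left g x, h, T.zero]

/-- orbits of vectors under the group and the scalars -/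
def vset : Setoid {x : E // x ≠ 0} where
  r x y := ∃ (g : G) (l : F), l ≠ 0 ∧ (y : E) = l • T.φ g x
  iseqv := {
    refl := fun x => ⟨1, 1, one_ne_zero, by rw [T.one, one_smul]⟩
    symm := by
      rintro x y ⟨g, l, hl, h⟩
      refine ⟨g⁻¹, l⁻¹, inv_ne_zero hl, ?_⟩
      rw [h, T.smul, smul_smul, inv_mul_cancel₀ hl, one_smul, T.inv_left]
    trans := by
      rintro x y w ⟨g, l, hl, h⟩ ⟨g', l', hl', h'⟩
      refine ⟨g' * g, l' * l, mul_ne_zero hl' hl, ?_⟩
      rw [h', h, T.smul, smul_smul, T.mul] }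

/-- orbits -/
abbrev Kq : Type := Quotient T.vset

noncomputable instance : Fintype T.Kq := by
  classical exact Quotient.fintype _

noncomputable instance : DecidableEq T.Kq := Classical.decEq _

/-- representatives of the orbits -/
noncomputable def rv (k : T.Kq) : E := (Quotient.out k : {x : E // x ≠ 0})

theorem rv_ne (k : T.Kq) : T.rv k ≠ 0 := (Quotient.out k : {x : E // x ≠ 0}).2

theorem rv_cases {x : E} (hx : x ≠ 0) : ∃ (k : T.Kq) (g : G) (l : F), l ≠ 0 ∧
    x = l • T.φ g (T.rv k) := by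
  have h : T.vset.r (Quotient.out (Quotient.mk T.vset ⟨x, hx⟩)) ⟨x, hx⟩ :=
    Quotient.exact (Quotient.out_eq _)
  obtain ⟨g, l, hl, h⟩ := h
  exact ⟨_, g, l, hl, h⟩

theorem rv_eq {k k' : T.Kq} {g : G} {l : F} (hl : l ≠ 0) (h : T.rv k' = l • T.φ g (T.rv k)) :
    k = k' := by
  have h1 : T.vset.r (Quotient.out k) (Quotient.out k') := ⟨g, l, hl, h⟩
  have h2 := Quotient.sound (s := T.vset) h1
  rwa [Quotient.out_eq, Quotient.out_eq] at h2

variable (hz2 : z * z = 1)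

/-- vector of a point -/
noncomputable def vv (p : T.Kq × Hq z hz2) : E := T.φ (rp p.2) (T.rv p.1)

theorem vv_ne (p : T.Kq × Hq z hz2) : T.vv hz2 p ≠ 0 := T.ne_zero _ (T.rv_ne _)

theorem vv_inj (hzc : ∀ g, z * g = g * z) {p r : T.Kq × Hq z hz2} {l : F}
    (h : T.vv hz2 r = l • T.vv hz2 p) : p = r := by
  have hl : l ≠ 0 := by
    intro h0
    rw [h0, zero_smul] at h
    exact T.vv_ne hz2 r h
  obtain ⟨k, a⟩ := p
  obtain ⟨k', b⟩ := r
  simp only [vv] at h
  have h1 : T.rv k' = l • T.φ ((rp b)⁻¹ * rp a) (T.rv k) := by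
    have := congrArg (T.φ (rp b)⁻¹) h
    rwa [T.inv_left, T.smul, ← T.mul] at this
  have hk := T.rv_eq hl h1
  subst hk
  have h2 : T.φ ((rp b)⁻¹ * rp a) (T.rv k) = l⁻¹ • T.rv k := by
    conv_rhs => rw [h1]
    rw [smul_smul, inv_mul_cancel₀ hl, one_smul]
  have hab : a = b := by
    rcases T.free _ _ _ (T.rv_ne k) h2 with h3 | h3
    · apply rp_eq
      left
      rw [inv_mul_eq_one] at h3
      exact h3.symm
    · apply rp_eq
      right
      rw [hzc]
      exact inv_mul_eq_iff_eq_mul.1 h3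
  rw [hab]

theorem bij (hzc : ∀ g, z * g = g * z) : Function.Bijective
    (fun x : Fˣ × (T.Kq × Hq z hz2) =>
      (⟨(x.1 : F) • T.vv hz2 x.2, smul_ne_zero x.1.ne_zero (T.vv_ne hz2 x.2)⟩ :
        {x : E // x ≠ 0})) := by
  constructor
  · rintro ⟨u, p⟩ ⟨u', r⟩ h
    have h1 : (u : F) • T.vv hz2 p = (u' : F) • T.vv hz2 r := congrArg Subtype.val h
    have h2 : T.vv hz2 r = ((u' : F)⁻¹ * u) • T.vv hz2 p := by
      rw [mul_smul, h1, smul_smul, inv_mul_cancel₀ u'.ne_zero, one_smul]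
    have hpr := T.vv_inj hz2 hzc h2
    subst hpr
    have h3 : ((u : F) - u') • T.vv hz2 p = 0 := by rw [sub_smul, h1, sub_self]
    rcases smul_eq_zero.1 h3 with h4 | h4
    · rw [Units.ext (sub_eq_zero.1 h4)]
    · exact absurd h4 (T.vv_ne hz2 p)
  · rintro ⟨x, hx⟩
    obtain ⟨k, g, l, hl, h⟩ := T.rv_cases hx
    rcases rp_cases (z := z) (hz2 := hz2) g with hg | hg
    · refine ⟨(Units.mk0 l hl, (k, Quotient.mk _ g)), ?_⟩
      apply Subtype.ext
      show l • T.φ (rp (Quotient.mk (zset z hz2) g)) (T.rv k) = x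
      rw [← hg, h]
    · refine ⟨(Units.mk0 (-l) (neg_ne_zero.2 hl), (k, Quotient.mk _ g)), ?_⟩
      apply Subtype.ext
      show (-l) • T.φ (rp (Quotient.mk (zset z hz2) g)) (T.rv k) = x
      have h5 : T.φ g (T.rv k) = -T.φ (rp (Quotient.mk (zset z hz2) g)) (T.rv k) := by
        conv_lhs => rw [hg]
        rw [T.mul, T.zz]
      rw [h, h5, smul_neg, neg_smul]

theorem card_pts (hzc : ∀ g, z * g = g * z) (hE : Fintype.card E = Fintype.card F ^ 2) :
    Fintype.card (T.Kq × Hq z hz2) = Fintype.card F + 1 := by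
  have h1 := Fintype.card_congr (Equiv.ofBijective _ (T.bij hz2 hzc))
  rw [Fintype.card_prod, Fintype.card_units] at h1
  have h2 : Fintype.card {x : E // x ≠ 0} = Fintype.card E - 1 := by
    rw [Fintype.card_subtype_compl, Fintype.card_subtype_eq]
  have hq : 1 < Fintype.card F := Fintype.one_lt_card
  obtain ⟨k, hk⟩ : ∃ k, Fintype.card F = k + 2 := ⟨Fintype.card F - 2, by omega⟩
  rw [h2, hE, hk] at h1
  rw [hk]
  have h3 : (k + 2) ^ 2 - 1 = (k + 1) * (k + 2 + 1) := by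
    have : (k + 2) ^ 2 = (k + 1) * (k + 2 + 1) + 1 := by ring
    omega
  rw [h3, show k + 2 - 1 = k + 1 by omega] at h1
  exact Nat.eq_of_mul_eq_mul_left (by omega) h1

theorem sum_pts (hzc : ∀ g, z * g = g * z) (f : E → ℤ) (h0 : f 0 = 0)
    (hf : ∀ (l : F) x, l ≠ 0 → f (l • x) = f x) :
    ∑ x, f x = ((Fintype.card F : ℤ) - 1) * ∑ p : T.Kq × Hq z hz2, f (T.vv hz2 p) := by
  have h1 : ∑ x, f x = ∑ x : {x : E // x ≠ 0}, f x := by
    rw [Fintype.sum_eq_add_sum_subtype_ne f 0, h0, zero_add]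
  rw [h1, ← (Equiv.ofBijective _ (T.bij hz2 hzc)).sum_comp, Fintype.sum_prod_type]
  have h2 : ∀ (u : Fˣ) (p : T.Kq × Hq z hz2),
      f ((Equiv.ofBijective _ (T.bij hz2 hzc)) (u, p)) = f (T.vv hz2 p) := by
    intro u p
    exact hf u _ u.ne_zero
  simp only [h2, sum_const, card_univ, nsmul_eq_mul, Fintype.card_units]
  rw [Nat.cast_sub Fintype.card_pos, Nat.cast_one]

/-! ### the matrices -/

/-- the conference matrix -/
noncomputable def Cm (p r : T.Kq × Hq z hz2) : ℤ := qc (D (T.vv hz2 p) (T.vv hz2 r))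

theorem Cm_diag (hD : Alt D) (p : T.Kq × Hq z hz2) : T.Cm hz2 p p = 0 := by
  unfold Cm; rw [hD.self, qc_zero]

theorem D_ne (hD : Alt D) (hzc : ∀ g, z * g = g * z) {p r : T.Kq × Hq z hz2} (hpr : p ≠ r) :
    D (T.vv hz2 p) (T.vv hz2 r) ≠ 0 := by
  intro h
  obtain ⟨l, hl⟩ := hD.nd _ _ (T.vv_ne hz2 p) h
  exact hpr (T.vv_inj hz2 hzc hl)

theorem Cm_sg (hD : Alt D) (hzc : ∀ g, z * g = g * z) {p r : T.Kq × Hq z hz2} (hpr : p ≠ r) :
    Sg (T.Cm hz2 p r) := qc_sg (T.D_ne hz2 hD hzc hpr)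

theorem Cm_skew (hD : Alt D) (h3 : Fintype.card F % 4 = 3) (p r : T.Kq × Hq z hz2) :
    T.Cm hz2 r p = - T.Cm hz2 p r := by
  unfold Cm; rw [hD.symm, qc_neg h3]

theorem qc_sq {l : F} (hl : l ≠ 0) : qc l * qc l = 1 := by
  rcases qc_sg hl with h | h <;> rw [h] <;> norm_num

/-- two rows against all points -/
theorem two_rows (hD : Alt D) (hzc : ∀ g, z * g = g * z) (h3 : Fintype.card F % 4 = 3) {x y : E}
    (hxy : D x y ≠ 0) : ∑ p : T.Kq × Hq z hz2, qc (D x (T.vv hz2 p)) * qc (D y (T.vv hz2 p)) = 0 := by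
  have h1 := T.sum_pts hz2 hzc (fun w => qc (D x w) * qc (D y w)) (by
      have : D x 0 = 0 := by
        have := hD.smul 0 x 0
        rwa [zero_smul, zero_mul] at this
      simp only [this, qc_zero, zero_mul]) (by
      intro l w hl
      simp only [hD.smul, qc_mul]
      have := qc_sq hl
      linear_combination (qc (D x w) * qc (D y w)) * this)
  rw [hD.sum_zero h3 hxy] at h1
  have h2 : ((Fintype.card F : ℤ) - 1) ≠ 0 := by
    have : 1 < Fintype.card F := Fintype.one_lt_card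
    omega
  exact (mul_eq_zero.1 h1.symm).resolve_left h2

theorem Cm_CC (hD : Alt D) (hzc : ∀ g, z * g = g * z) (h3 : Fintype.card F % 4 = 3)
    (hE : Fintype.card E = Fintype.card F ^ 2) (p r : T.Kq × Hq z hz2) :
    ∑ w, T.Cm hz2 p w * T.Cm hz2 r w = if p = r then (Fintype.card F : ℤ) else 0 := by
  by_cases hpr : p = r
  · subst hpr
    rw [if_pos rfl]
    have h1 : ∀ w, T.Cm hz2 p w * T.Cm hz2 p w = 1 - if p = w then 1 else 0 := by
      intro w
      by_cases hw : p = w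
      · rw [if_pos hw, ← hw, T.Cm_diag hz2 hD]; ring
      · rw [if_neg hw]
        rcases T.Cm_sg hz2 hD hzc hw with h | h <;> rw [h] <;> norm_num
    simp only [h1, sum_sub_distrib, sum_const, card_univ, sum_ite_eq, mem_univ, if_true,
      nsmul_eq_mul, mul_one]
    rw [T.card_pts hz2 hzc hE]
    push_cast
    ring
  · rw [if_neg hpr]
    exact T.two_rows hz2 hD hzc h3 (T.D_ne hz2 hD hzc hpr)

variable {m : G → ℤ}

/-- the group matrix -/
noncomputable def Lm (m : G → ℤ) (a b : Hq z hz2) : ℤ := m (rp b * (rp a)⁻¹)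

omit T in
theorem Lm_LL (hz1 : z ≠ 1) (hzc : ∀ g, z * g = g * z) (hm : Perf z m) (a b : Hq z hz2) :
    ∑ c, Lm hz2 m a c * Lm hz2 m b c = if a = b then (Fintype.card (Hq z hz2) : ℤ) else 0 := by
  have h1 := sum_rp (hz2 := hz2) hz1 (fun g => m (g * (rp a)⁻¹) * m (g * (rp b)⁻¹)) (by
    intro g
    rw [mul_assoc, mul_assoc, hm.odd, hm.odd]; ring)
  have h2 : ∑ g, m (g * (rp a)⁻¹) * m (g * (rp b)⁻¹) =
      ∑ u, m u * m (u * (rp a * (rp b)⁻¹)) := by
    rw [← Equiv.sum_comp (Equiv.mulRight (rp a)) (fun g => m (g * (rp a)⁻¹) * m (g * (rp b)⁻¹))]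
    refine sum_congr rfl fun u _ => ?_
    rw [Equiv.coe_mulRight, mul_inv_cancel_right, mul_assoc]
  rw [h2, hm.cor] at h1
  have h3 : ∑ c, Lm hz2 m a c * Lm hz2 m b c =
      ∑ h : Hq z hz2, m (rp h * (rp a)⁻¹) * m (rp h * (rp b)⁻¹) := rfl
  rw [h3]
  have hc := card_rp (hz2 := hz2) hz1
  by_cases hab : a = b
  · subst hab
    rw [if_pos (mul_inv_cancel _), hc] at h1
    rw [if_pos rfl]
    push_cast at h1
    linarith
  · rw [if_neg, if_neg] at h1
    · rw [if_neg hab]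
      linarith
    · intro h
      apply hab
      apply rp_eq
      right
      exact mul_inv_eq_iff_eq_mul.1 h
    · intro h
      apply hab
      apply rp_eq
      left
      exact mul_inv_eq_one.1 h

/-- the commuting matrix -/
noncomputable def Mm (m : G → ℤ) (p r : T.Kq × Hq z hz2) : ℤ :=
  if p.1 = r.1 then Lm hz2 m p.2 r.2 else 0

theorem Mm_MM (hz1 : z ≠ 1) (hzc : ∀ g, z * g = g * z) (hm : Perf z m)
    (p r : T.Kq × Hq z hz2) : ∑ w, T.Mm hz2 m p w * T.Mm hz2 m r w =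
      if p = r then (Fintype.card (Hq z hz2) : ℤ) else 0 := by
  obtain ⟨k, a⟩ := p
  obtain ⟨k', b⟩ := r
  rw [Fintype.sum_prod_type]
  have h1 : ∀ l : T.Kq, ∑ c, T.Mm hz2 m (k, a) (l, c) * T.Mm hz2 m (k', b) (l, c) =
      if k = l then (if k' = l then (if a = b then (Fintype.card (Hq z hz2) : ℤ) else 0) else 0)
        else 0 := by
    intro l
    rw [← Lm_LL hz2 hz1 hzc hm a b]
    simp only [Mm]
    split_ifs <;> simp
  simp only [h1, sum_ite_eq, mem_univ, if_true, Prod.mk.injEq]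
  by_cases hk : k = k'
  · subst hk; simp
  · rw [if_neg (Ne.symm hk), if_neg (fun h => hk h.1)]

theorem CmMm (hzc : ∀ g, z * g = g * z) (hz1 : z ≠ 1) (hD : Alt D)
    (h3 : Fintype.card F % 4 = 3) (hm : Perf z m) (p r : T.Kq × Hq z hz2) :
    ∑ w, T.Cm hz2 p w * T.Mm hz2 m w r = ∑ w, T.Mm hz2 m p w * T.Cm hz2 w r := by
  obtain ⟨k, a⟩ := p
  obtain ⟨l, b⟩ := r
  obtain ⟨f, hf⟩ : ∃ f : G → ℤ, f = fun g => qc (D (T.rv k) (T.φ g (T.rv l))) := ⟨_, rfl⟩
  have hfz : ∀ g, f (z * g) = - f g := by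
    intro g
    rw [hf]
    simp only
    rw [T.mul, T.zz, hD.neg, qc_neg h3]
  have hCf : ∀ g h : G, qc (D (T.φ g (T.rv k)) (T.φ h (T.rv l))) = f (g⁻¹ * h) := by
    intro g h
    rw [hf]
    simp only
    rw [← T.form g⁻¹, T.inv_left, ← T.mul]
  have e1 : ∑ w, T.Cm hz2 (k, a) w * T.Mm hz2 m w (l, b) =
      ∑ h : Hq z hz2, f ((rp a)⁻¹ * rp h) * m (rp b * (rp h)⁻¹) := by
    rw [Fintype.sum_prod_type]
    have h1 : ∀ j : T.Kq, ∑ h, T.Cm hz2 (k, a) (j, h) * T.Mm hz2 m (j, h) (l, b) =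
        if j = l then ∑ h : Hq z hz2, f ((rp a)⁻¹ * rp h) * m (rp b * (rp h)⁻¹) else 0 := by
      intro j
      simp only [Mm]
      split_ifs with hj
      · subst hj
        refine sum_congr rfl fun h _ => ?_
        rw [← hCf]
        rfl
      · simp
    simp only [h1, sum_ite_eq', mem_univ, if_true]
  have e2 : ∑ w, T.Mm hz2 m (k, a) w * T.Cm hz2 w (l, b) =
      ∑ h : Hq z hz2, m (rp h * (rp a)⁻¹) * f ((rp h)⁻¹ * rp b) := by
    rw [Fintype.sum_prod_type]
    have h1 : ∀ j : T.Kq, ∑ h, T.Mm hz2 m (k, a) (j, h) * T.Cm hz2 (j, h) (l, b) =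
        if k = j then ∑ h : Hq z hz2, m (rp h * (rp a)⁻¹) * f ((rp h)⁻¹ * rp b) else 0 := by
      intro j
      simp only [Mm]
      split_ifs with hj
      · subst hj
        refine sum_congr rfl fun h _ => ?_
        rw [← hCf]
        rfl
      · simp
    simp only [h1, sum_ite_eq, mem_univ, if_true]
  rw [e1, e2]
  have hzi : z⁻¹ = z := inv_eq_of_mul_eq_one_left hz2
  have s1 := sum_rp (hz2 := hz2) hz1 (fun g => f ((rp a)⁻¹ * g) * m (rp b * g⁻¹)) (by
    intro g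
    have h1 : (rp a)⁻¹ * (z * g) = z * ((rp a)⁻¹ * g) := by rw [← mul_assoc, ← hzc, mul_assoc]
    have h2 : rp b * (z * g)⁻¹ = z * (rp b * g⁻¹) := by
      rw [mul_inv_rev, hzi, ← mul_assoc, ← hzc]
    rw [h1, h2, hfz, hm.odd]; ring)
  have s2 := sum_rp (hz2 := hz2) hz1 (fun g => m (g * (rp a)⁻¹) * f (g⁻¹ * rp b)) (by
    intro g
    have h1 : (z * g) * (rp a)⁻¹ = z * (g * (rp a)⁻¹) := by rw [mul_assoc]
    have h2 : (z * g)⁻¹ * rp b = z * (g⁻¹ * rp b) := by
      rw [mul_inv_rev, hzi, ← hzc, mul_assoc]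
    rw [h1, h2, hfz, hm.odd]; ring)
  have s3 : ∑ g, f ((rp a)⁻¹ * g) * m (rp b * g⁻¹) = ∑ g, m (g * (rp a)⁻¹) * f (g⁻¹ * rp b) := by
    let e : G ≃ G := ((Equiv.inv G).trans (Equiv.mulLeft (rp b))).trans (Equiv.mulRight (rp a))
    rw [← e.sum_comp (fun g => m (g * (rp a)⁻¹) * f (g⁻¹ * rp b))]
    refine sum_congr rfl fun g _ => ?_
    have h1 : e g = rp b * g⁻¹ * rp a := rfl
    have h2 : e g * (rp a)⁻¹ = rp b * g⁻¹ := by rw [h1, mul_inv_cancel_right]
    have h3 : (e g)⁻¹ * rp b = (rp a)⁻¹ * g := by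
      rw [h1]; group
    rw [h2, h3, mul_comm]
  linarith

end Act

/-- rows give columns -/
theorem cols_of_rows {ι : Type} [Fintype ι] [DecidableEq ι] {A : ι → ι → ℤ} {e : ℤ} (he : e ≠ 0)
    (h : ∀ p r, ∑ w, A p w * A r w = if p = r then e else 0) (p r : ι) :
    ∑ w, A w p * A w r = if p = r then e else 0 := by
  let B : Matrix ι ι ℚ := Matrix.of fun i j => (A i j : ℚ)
  have he' : (e : ℚ) ≠ 0 := by exact_mod_cast he
  have h1 : B * B.transpose = (e : ℚ) • (1 : Matrix ι ι ℚ) := by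
    ext i j
    rw [Matrix.mul_apply, Matrix.smul_apply, Matrix.one_apply]
    have := h i j
    have h2 : ((∑ w, A i w * A j w : ℤ) : ℚ) = ((if i = j then e else 0 : ℤ) : ℚ) := by rw [this]
    push_cast at h2
    simp only [B, Matrix.of_apply, Matrix.transpose_apply, smul_eq_mul]
    rw [h2]
    split_ifs <;> simp
  have h2 : ((e : ℚ)⁻¹ • B) * B.transpose = 1 := by
    rw [Matrix.smul_mul, h1, smul_smul, inv_mul_cancel₀ he', one_smul]
  have h3 := mul_eq_one_comm.1 h2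
  rw [Matrix.mul_smul] at h3
  have h4 : B.transpose * B = (e : ℚ) • (1 : Matrix ι ι ℚ) := by
    have := congrArg (fun M => (e : ℚ) • M) h3
    simpa only [smul_smul, mul_inv_cancel₀ he', one_smul] using this
  have h5 := congrFun (congrFun h4 p) r
  rw [Matrix.mul_apply, Matrix.smul_apply, Matrix.one_apply] at h5
  simp only [B, Matrix.of_apply, Matrix.transpose_apply, smul_eq_mul] at h5
  have h6 : ((∑ w, A w p * A w r : ℤ) : ℚ) = ((if p = r then e else 0 : ℤ) : ℚ) := by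
    push_cast
    rw [h5]
    split_ifs <;> simp
  exact_mod_cast h6

end Pool.Agent.K1H39.Fam
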